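import Pool.Agent.Lib_helper17.RS.Stmt

/-!
# Stark's conjecture over `ℚ`
-/

namespace Pool.Agent.RT

open Pool.Agent.RSK
open NumberField IsDedekindDomain
open scoped TensorProduct

section M

variable {R M A : Type} [CommRing R] [AddCommGroup M] [Module R M] [CommRing A] [Algebra R A]
  [Module ℚ A] {r : ℕ}

/-- The conditions of `IsRub` without the integrality: the element `u ∈ ℚ ⊗ ⋀^r_R M` is killed by
`I`, and `l_1 ∧ … ∧ l_r` maps `u` to `Θ`. -/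
structure IsRat (l : Fin r → (M →ₗ[R] A)) (I : Set R) (Θ : A) (u : (⋀[R]^r M) ⊗[ℤ] ℚ) :
    Prop where
  /-- `I` annihilates `u` -/
  er : ∀ a ∈ I, a • u = 0
  /-- `(l_1 ∧ … ∧ l_r)(u) = Θ` -/
  value : extQ (detMap l).toAddMonoidHom u = Θ

end M

section R

variable {F H : Type} [Field F] [NumberField F] [Field H] [NumberField H] [Algebra F H]
variable {G : Type} [CommGroup G] [Fintype G]

/-- The conclusion of Stark's conjecture over `ℚ`: there is an element `u ∈ ℚ ⊗ ⋀^r U_{S,T}` with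
`u = e_r u` and `(w_1^* ∧ … ∧ w_r^*)(λ(u)) = Θ`. -/
def StarkQ (ι : G ≃* (H ≃ₐ[F] H)) (S T : Finset (HeightOneSpectrum (𝓞 F))) {r : ℕ}
    (w : Fin r → Pl H) (fr : HeightOneSpectrum (𝓞 F) → G) : Prop :=
  ∃ (c : (G →* ℂˣ) → ℂ) (Θ : MonoidAlgebra ℝ G), Lead S T r fr c ∧ (∀ χ, evR χ Θ = c χ⁻¹) ∧
    ∃ (M : Type) (_ : AddCommGroup M) (_ : Module (MonoidAlgebra ℤ G) M) (e : M → Hˣ)
      (l : Fin r → (M →ₗ[MonoidAlgebra ℤ G] MonoidAlgebra ℝ G)), IsMod ι S T w e l ∧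
        ∃ u, IsRat l {a | ∀ χ, c χ ≠ 0 → evZ χ a = 0} Θ u

/-- There is a set `C` of places with `∑_{v ∈ C} 1 / N v = ∞` such that Rubin's conjecture holds
for `(S, T ∪ {v})` for all `T` as in the conjecture and all `v ∈ C` not in `T`. -/
def RubinMost (ι : G ≃* (H ≃ₐ[F] H)) (S : Finset (HeightOneSpectrum (𝓞 F))) {r : ℕ}
    (w : Fin r → Pl H) (fr : HeightOneSpectrum (𝓞 F) → G) : Prop :=
  ∃ C : Set (HeightOneSpectrum (𝓞 F)), (∀ v ∈ C, v ∉ S) ∧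
    ¬ Summable (fun v : C => (nv v.1 : ℝ)⁻¹) ∧
    ∀ (T : Finset (HeightOneSpectrum (𝓞 F))) (v : HeightOneSpectrum (𝓞 F)) (hv : v ∉ T),
      Data ι S T r w fr → v ∈ C → Rubin ι S (Finset.cons v T hv) w fr

end R

end Pool.Agent.RT
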