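import Pool.Agent.Lib_helper49.RT.NV
import Pool.Agent.Lib_helper35.RS2.P_LC3

/-!
# Amplification in `T`: the set of places
-/

namespace Pool.Agent.RT

set_option linter.unusedSectionVars false

open Pool.Agent.RSK Pool.Agent.RS2
open NumberField IsDedekindDomain

section

variable {F H : Type} [Field F] [NumberField F] [Field H] [NumberField H] [Algebra F H]
  [IsGalois F H] {G : Type} [CommGroup G] [Fintype G] {ι : G ≃* (H ≃ₐ[F] H)}
  {S T : Finset (HeightOneSpectrum (𝓞 F))} {r : ℕ} {w : Fin r → Pl H}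
  {fr : HeightOneSpectrum (𝓞 F) → G}

/-- the elements whose `E`-th power is `1` modulo `W` -/
def KE (W : HeightOneSpectrum (𝓞 H)) (E : ℕ) : Subgroup Hˣ := (KT {W}).comap (powMonoidHom E)

theorem mem_KE {W : HeightOneSpectrum (𝓞 H)} {E : ℕ} {x : Hˣ} :
    x ∈ KE W E ↔ W.valuation H ((x : H) ^ E - 1) < 1 := by
  show (∀ v ∈ ({W} : Finset _), v.valuation H (((x ^ E : Hˣ) : H) - 1) < 1) ↔ _
  rw [Units.val_pow_eq_pow_val]
  simp

theorem mem_KE_div {W : HeightOneSpectrum (𝓞 H)} {E : ℕ} (hE : E ≠ 0) {x : Hˣ} {a c : 𝓞 H}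
    (hx : (a : H) / (c : H) = (x : H)) (ha : a ^ E - 1 ∈ W.asIdeal) (hc : c ^ E - 1 ∈ W.asIdeal)
    (hc0 : c ≠ 0) : x ∈ KE W E := by
  rw [mem_KE]
  have hcW : c ∉ W.asIdeal := by
    intro h
    have h1 : c ^ E ∈ W.asIdeal := W.asIdeal.pow_mem_of_mem h _ (Nat.pos_of_ne_zero hE)
    apply W.isPrime.ne_top
    rw [Ideal.eq_top_iff_one]
    have h2 := W.asIdeal.sub_mem h1 hc
    rwa [sub_sub_cancel] at h2
  have hcH : (c : H) ≠ 0 := fun h => hc0 (RingOfIntegers.coe_injective (by rw [map_zero]; exact h))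
  have h1 : W.valuation H (c : H) = 1 := by
    have h2 : W.valuation H (algebraMap (𝓞 H) H c) = 1 := by
      rw [HeightOneSpectrum.valuation_of_algebraMap]
      exact HeightOneSpectrum.intValuation_eq_one_iff.2 hcW
    exact h2
  have h3 : (x : H) ^ E - 1 = (algebraMap (𝓞 H) H (a ^ E - c ^ E)) / (c : H) ^ E := by
    rw [← hx, map_sub, map_pow, map_pow, div_pow]
    have : (c : H) ^ E ≠ 0 := pow_ne_zero _ hcH
    field_simp
  rw [h3, map_div₀, map_pow, h1, one_pow, div_one, HeightOneSpectrum.valuation_lt_one_iff_mem]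
  have h4 : a ^ E - c ^ E = (a ^ E - 1) - (c ^ E - 1) := by ring
  rw [h4]
  exact W.asIdeal.sub_mem ha hc

/-- the condition `E U_{S,T} ⊆ U_{S,T ∪ {v}}` -/
theorem zsmul_mem {v : HeightOneSpectrum (𝓞 F)} (hv : v ∉ T) {E : ℕ}
    (h : ∀ (u : UM ι S T) (W : HeightOneSpectrum (𝓞 H)), W.under (𝓞 F) = v →
      u.val ∈ KE W E) (u : UM ι S T) :
    (((E : ℤ)) • u).val ∈ Un (ovr H S) (ovr H (Finset.cons v T hv)) := by
  have h1 : ((E : ℤ) • u).val = u.val ^ E := by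
    rw [l3_zsmul_val, zpow_natCast]
  have h2 : u.val ^ E ∈ Un (ovr H S) (ovr H T) := (Un (ovr H S) (ovr H T)).pow_mem u.val_mem E
  rw [h1]
  refine ⟨h2.1, fun W hW => ?_⟩
  rw [mem_ovr, Finset.mem_cons] at hW
  rcases hW with hW | hW
  · have h3 := mem_KE.1 (h u W hW)
    rw [Units.val_pow_eq_pow_val]
    exact h3
  · exact h2.2 W (mem_ovr.2 hW)

/-- conjugate places -/
theorem KE_conj {W W' : HeightOneSpectrum (𝓞 H)} (hW : W.under (𝓞 F) = W'.under (𝓞 F)) {E : ℕ}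
    (h : ∀ x ∈ Un (ovr H S) (ovr H T), x ∈ KE W E) :
    ∀ x ∈ Un (ovr H S) (ovr H T), x ∈ KE W' E := by
  intro x hx
  obtain ⟨σ, hσ⟩ := act_trans (F := F) (H := H) (W := Sum.inr W) (W' := Sum.inr W')
    (by show Sum.inr _ = Sum.inr _; rw [hW])
  have h1 : HeightOneSpectrum.equivOfRingEquiv (RingOfIntegers.mapRingEquiv σ.toRingEquiv) W = W' :=
    Sum.inr_injective hσ
  have h2 := val_equiv σ.toRingEquiv W (((σ⁻¹ • x : Hˣ) : H) ^ E - 1)
  have h3 : σ.toRingEquiv (((σ⁻¹ • x : Hˣ) : H) ^ E - 1) = (x : H) ^ E - 1 := by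
    show σ (((σ⁻¹ • x : Hˣ) : H) ^ E - 1) = _
    rw [map_sub, map_pow, map_one]
    congr 2
    show σ (σ⁻¹ (x : H)) = _
    show (σ * σ⁻¹) (x : H) = _
    rw [mul_inv_cancel]
    rfl
  rw [h3, h1] at h2
  rw [mem_KE, h2]
  exact mem_KE.1 (h _ (un_smul σ⁻¹ hx))

/-- `n_v u` is in `U_{S,T ∪ {v}}` -/
theorem nv_mul_mem {v : HeightOneSpectrum (𝓞 F)} (hfr : IsFr v (ι (fr v))) (hv : v ∉ T)
    (hvS : v ∉ S) (u : UM ι S T) : ((1 - (nv v : ℤ) ^ Nat.card G) • u).val ∈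
      Un (ovr H S) (ovr H (Finset.cons v T hv)) := by
  obtain ⟨f, hf⟩ := res_T2 (ι := ι) (S := S) hfr hv hvS
  set n : ℤ := 1 - (nv v : ℤ) ^ Nat.card G with hn
  rw [← hf]
  have h1 : n • u = (MonoidAlgebra.single (1 : G) n) • u := by
    have h2 : MonoidAlgebra.single (1 : G) n = n • (1 : MonoidAlgebra ℤ G) := by
      rw [MonoidAlgebra.one_def, MonoidAlgebra.smul_single]
      simp
    rw [h2, smul_assoc, one_smul]
  rw [h1, map_smul, hn, ← lc3_geom (fr v)⁻¹ (nv v : ℤ)]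
  obtain ⟨a, ha⟩ := Ideal.Quotient.mk_surjective (f u)
  rw [← ha]
  show Ideal.Quotient.mk (Ideal.span {1 - MonoidAlgebra.single (fr v)⁻¹ (nv v : ℤ)})
    ((1 - MonoidAlgebra.single (fr v)⁻¹ (nv v : ℤ)) * _ * a) = 0
  rw [Ideal.Quotient.eq_zero_iff_mem, mul_assoc]
  exact Ideal.mul_mem_right _ _ (Ideal.mem_span_singleton_self _)

/-- powers of `S`-units are in `U_{S,T}` -/
theorem un_pow (hfr : ∀ v, v ∉ S → IsFr v (ι (fr v))) (T : Finset (HeightOneSpectrum (𝓞 F)))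
    (hd : Disjoint S T) : ∀ x ∈ Un (ovr H S) (ovr H (∅ : Finset (HeightOneSpectrum (𝓞 F)))),
      x ^ (∏ v ∈ T, (nv v ^ Nat.card G - 1)) ∈ Un (ovr H S) (ovr H T) := by
  classical
  induction T using Finset.induction_on with
  | empty =>
    intro x hx
    rwa [Finset.prod_empty, pow_one]
  | insert v T hv ih =>
    intro x hx
    have h1 : Disjoint S T := hd.mono_right (Finset.subset_insert v T)
    have hvS : v ∉ S := fun h => Finset.disjoint_left.1 hd h (Finset.mem_insert_self v T)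
    have h2 := ih h1 x hx
    have h3 := nv_mul_mem (ι := ι) (S := S) (T := T) (hfr v hvS) hv hvS (UM.mk _ h2)
    rw [l3_zsmul_val, UM.val_mk, Finset.cons_eq_insert] at h3
    rw [Finset.prod_insert hv, mul_comm, pow_mul]
    have hq : 1 ≤ nv v ^ Nat.card G := Nat.one_le_pow _ _ (by
      have := nv_two_le v
      omega)
    have h4 : (1 - (nv v : ℤ) ^ Nat.card G) = -((nv v ^ Nat.card G - 1 : ℕ) : ℤ) := by
      push_cast [Nat.cast_sub hq]
      ring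
    rw [h4, zpow_neg, zpow_natCast] at h3
    have h5 := (Un (ovr H S) (ovr H (insert v T))).inv_mem h3
    rwa [inv_inv] at h5

/-- powers modulo `W` -/
theorem quot_pow {W : HeightOneSpectrum (𝓞 H)} {a : 𝓞 H} {E : ℕ} :
    a ^ E - 1 ∈ W.asIdeal ↔ (Ideal.Quotient.mk W.asIdeal a) ^ E = 1 := by
  rw [← Ideal.Quotient.eq_zero_iff_mem, map_sub, map_pow, map_one, sub_eq_zero]

theorem quot_gcd {W : HeightOneSpectrum (𝓞 H)} {a : 𝓞 H} (P : Finset ℕ) (e : ℕ → ℕ) {k : ℕ}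
    (hk : a ^ k - 1 ∈ W.asIdeal) (h : ∀ p ∈ P, a ^ e p - 1 ∈ W.asIdeal) :
    a ^ (Nat.gcd k (P.gcd e)) - 1 ∈ W.asIdeal := by
  classical
  rw [quot_pow] at hk ⊢
  have h1 : (Ideal.Quotient.mk W.asIdeal a) ^ (P.gcd e) = 1 := by
    induction P using Finset.induction_on with
    | empty => rw [Finset.gcd_empty, pow_zero]
    | insert p P hp ih =>
      rw [Finset.gcd_insert]
      exact pow_gcd_eq_one.2 ⟨quot_pow.1 (h p (Finset.mem_insert_self p P)),
        ih fun q hq => h q (Finset.mem_insert_of_mem hq)⟩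
  exact pow_gcd_eq_one.2 ⟨hk, h1⟩

/-- The set of places. -/
theorem exists_C (hD : Data ι S T r w fr) (P : Finset ℕ) (hP : ∀ p ∈ P, p.Prime) :
    ∃ b : ℕ → ℕ, ∀ M₀ : ℕ, ∃ M : ℕ → ℕ, (∀ p ∈ P, M₀ ≤ M p) ∧
      ∃ C : Set (HeightOneSpectrum (𝓞 F)),
        ¬ Summable (fun v : C => ((nv (v : HeightOneSpectrum (𝓞 F)) : ℕ) : ℝ)⁻¹) ∧
        ∀ v ∈ C, v ∉ S ∧ fr v = 1 ∧ ∃ E : ℕ, E ≠ 0 ∧
          (∀ p ∈ P, p ^ M p ∣ nv v - 1 ∧ ¬ p ^ (b p + 1) ∣ E) ∧
          ∀ x ∈ Un (ovr H S) (ovr H (∅ : Finset (HeightOneSpectrum (𝓞 F)))),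
            ∀ W : HeightOneSpectrum (𝓞 H), W.under (𝓞 F) = v → x ∈ KE W E := by
  classical
  obtain ⟨b, hb⟩ := nv_prime H P hP
  set m : ℕ := ∏ v ∈ T, (nv v ^ Nat.card G - 1) with hm
  have hm0 : m ≠ 0 := by
    rw [hm, Finset.prod_ne_zero_iff]
    intro v _
    have h2 : 1 < nv v ^ Nat.card G := one_lt_pow₀ (by
      have := nv_two_le v
      omega) (Nat.card_pos (α := G)).ne'
    omega
  refine ⟨fun p => padicValNat p m + b p, fun M₀ => ?_⟩
  obtain ⟨M, hM, h⟩ := hb M₀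
  refine ⟨M, hM, ?_⟩
  -- generators of `U_{S,T}`
  obtain ⟨s, hs⟩ := (um_finite hD).fg_top
  have hfrac : ∀ u : UM ι S T, ∃ a c : 𝓞 H, a ≠ 0 ∧ c ≠ 0 ∧ (a : H) / (c : H) = (u.val : H) := by
    intro u
    obtain ⟨a, c, hc, hac⟩ := IsFractionRing.div_surjective (A := 𝓞 H) (u.val : H)
    refine ⟨a, c, ?_, nonZeroDivisors.ne_zero hc, hac⟩
    rintro rfl
    rw [map_zero, zero_div] at hac
    exact u.val.ne_zero hac.symm
  choose nu de hnu hde hnd using hfrac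
  -- elements moved by `g ≠ 1`
  have hmove : ∀ g : G, ∃ z : 𝓞 H, g ≠ 1 →
      RingOfIntegers.mapRingEquiv (ι g).toRingEquiv z - z ≠ 0 := by
    intro g
    by_contra hcon
    push Not at hcon
    obtain ⟨hg, -⟩ := hcon 0
    apply hg
    apply ι.injective
    rw [map_one]
    ext z
    obtain ⟨a, c, hc, rfl⟩ := IsFractionRing.div_surjective (A := 𝓞 H) z
    have h1 : ∀ x : 𝓞 H, ι g (algebraMap (𝓞 H) H x) = algebraMap (𝓞 H) H x := fun x => by
      have h2 := sub_eq_zero.1 (hcon x).2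
      exact congrArg (fun y : 𝓞 H => (y : H)) h2
    rw [map_div₀, h1, h1]
    rfl
  choose z hz using hmove
  obtain ⟨Q, B, hQ, hQw⟩ := h (s.image nu ∪ s.image de)
    ((Finset.univ.erase (1 : G)).image
      (fun g => RingOfIntegers.mapRingEquiv (ι g).toRingEquiv (z g) - z g)) (by
      intro a ha
      rw [Finset.mem_union, Finset.mem_image, Finset.mem_image] at ha
      rcases ha with ⟨u, -, rfl⟩ | ⟨u, -, rfl⟩
      · exact hnu u
      · exact hde u) (by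
      intro d hd
      rw [Finset.mem_image] at hd
      obtain ⟨g, hg, rfl⟩ := hd
      exact hz g (Finset.ne_of_mem_erase hg))
  refine ⟨{v | v ∉ S ∧ fr v = 1 ∧ ∃ E : ℕ, E ≠ 0 ∧
          (∀ p ∈ P, p ^ M p ∣ nv v - 1 ∧ ¬ p ^ (padicValNat p m + b p + 1) ∣ E) ∧
          ∀ x ∈ Un (ovr H S) (ovr H (∅ : Finset (HeightOneSpectrum (𝓞 F)))),
            ∀ W : HeightOneSpectrum (𝓞 H), W.under (𝓞 F) = v → x ∈ KE W E}, ?_,
    fun v hv => hv⟩
  refine nv_inject (C := {v : HeightOneSpectrum (𝓞 F) // v ∉ S ∧ fr v = 1 ∧ ∃ E : ℕ, E ≠ 0 ∧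
          (∀ p ∈ P, p ^ M p ∣ nv v - 1 ∧ ¬ p ^ (padicValNat p m + b p + 1) ∣ E) ∧
          ∀ x ∈ Un (ovr H S) (ovr H (∅ : Finset (HeightOneSpectrum (𝓞 F)))),
            ∀ W : HeightOneSpectrum (𝓞 H), W.under (𝓞 F) = v → x ∈ KE W E})
    (fun v => nv v.1) hQ (B + ∑ v ∈ S, nv v) ?_
  intro q hqQ hq hBq
  obtain ⟨W, hqW, hW, hDW, hAW, hPW⟩ := hQw q hqQ hq (by omega)
  have hqv : (q : 𝓞 F) ∈ (W.under (𝓞 F)).asIdeal := by
    show algebraMap (𝓞 F) (𝓞 H) (q : 𝓞 F) ∈ W.asIdeal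
    rw [map_natCast]
    exact hqW
  have hnv : nv (W.under (𝓞 F)) = q := cb_card _ hq hqv (fun f => by
    show algebraMap (𝓞 F) (𝓞 H) (f ^ q - f) ∈ W.asIdeal
    rw [map_sub, map_pow]
    exact hW _)
  have hvS : W.under (𝓞 F) ∉ S := by
    intro hX
    have h3 : nv (W.under (𝓞 F)) ≤ ∑ v ∈ S, nv v :=
      Finset.single_le_sum (f := fun v => nv v) (fun _ _ => Nat.zero_le _) hX
    omega
  have hfr1 : fr (W.under (𝓞 F)) = 1 := by
    by_contra hfr
    have h1 := hD.frob _ hvS W rfl (z (fr (W.under (𝓞 F))))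
    rw [hnv] at h1
    refine hDW _ (Finset.mem_image_of_mem _ (Finset.mem_erase.2 ⟨hfr, Finset.mem_univ _⟩)) ?_
    have h2 := W.asIdeal.add_mem h1 (hW (z (fr (W.under (𝓞 F)))))
    rwa [sub_add_sub_cancel] at h2
  -- the exponent
  have hE0 : ∀ p : ℕ, ∃ E : ℕ, p ∈ P → q = 1 + p ^ M p * E ∧ ¬ p ^ (b p + 1) ∣ E ∧
      ∀ a ∈ s.image nu ∪ s.image de, a ^ E - 1 ∈ W.asIdeal := by
    intro p
    by_cases hp : p ∈ P
    · obtain ⟨E, hE⟩ := hPW p hp
      exact ⟨E, fun _ => hE⟩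
    · exact ⟨0, fun h => absurd h hp⟩
  choose e he using hE0
  have hq1 : q - 1 ≠ 0 := by
    have := hq.two_le
    omega
  set E₀ : ℕ := Nat.gcd (q - 1) (P.gcd e) with hE₀
  have hE₀0 : E₀ ≠ 0 := Nat.gcd_ne_zero_left hq1
  have hAE : ∀ a ∈ s.image nu ∪ s.image de, a ^ E₀ - 1 ∈ W.asIdeal := by
    intro a ha
    refine quot_gcd P e ?_ (fun p hp => (he p hp).2.2 a ha)
    have h1 : a * (a ^ (q - 1) - 1) ∈ W.asIdeal := by
      have h2 : a * (a ^ (q - 1) - 1) = a ^ q - a := by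
        obtain ⟨q', rfl⟩ : ∃ q', q = q' + 1 := ⟨q - 1, by omega⟩
        rw [Nat.add_sub_cancel]
        ring
      rw [h2]
      exact hW a
    exact (W.isPrime.mem_or_mem h1).resolve_left (hAW a ha)
  have hUT : ∀ x ∈ Un (ovr H S) (ovr H T), x ∈ KE W E₀ := by
    intro x hx
    have hu : (UM.mk (ι := ι) x hx) ∈ Submodule.span ℤ (s : Set (UM ι S T)) := by
      rw [hs]
      exact Submodule.mem_top
    have h1 : ∀ u : UM ι S T, u ∈ Submodule.span ℤ (s : Set (UM ι S T)) → u.val ∈ KE W E₀ := by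
      intro u hu
      induction hu using Submodule.span_induction with
      | mem u hu =>
        exact mem_KE_div hE₀0 (hnd u)
          (hAE _ (Finset.mem_union_left _ (Finset.mem_image_of_mem _ hu)))
          (hAE _ (Finset.mem_union_right _ (Finset.mem_image_of_mem _ hu))) (hde u)
      | zero => rw [UM.val_zero]; exact (KE W E₀).one_mem
      | add a b _ _ ha hb => rw [UM.val_add]; exact (KE W E₀).mul_mem ha hb
      | smul c a _ ha => rw [l3_zsmul_val]; exact (KE W E₀).zpow_mem ha c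
    have h2 := h1 _ hu
    rwa [UM.val_mk] at h2
  have hU0 : ∀ x ∈ Un (ovr H S) (ovr H (∅ : Finset (HeightOneSpectrum (𝓞 F)))),
      x ∈ KE W (m * E₀) := by
    intro x hx
    have h1 := mem_KE.1 (hUT _ (un_pow (ι := ι) hD.frob T hD.disj x hx))
    rw [mem_KE, pow_mul]
    rwa [Units.val_pow_eq_pow_val] at h1
  refine ⟨⟨W.under (𝓞 F), hvS, hfr1, m * E₀, mul_ne_zero hm0 hE₀0, fun p hp => ⟨?_, ?_⟩,
    fun x hx W' hW' => KE_conj hW'.symm hU0 x hx⟩, hnv⟩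
  · rw [hnv, (he p hp).1, Nat.add_sub_cancel_left]
    exact Nat.dvd_mul_right _ _
  · have hpf : Fact p.Prime := ⟨hP p hp⟩
    refine nt_split (hP p hp) ?_ ?_
    · intro h1
      have h2 := (padicValNat_dvd_iff_le hm0).1 h1
      omega
    · intro h1
      refine (he p hp).2.1 (h1.trans ?_)
      exact (Nat.gcd_dvd_right _ _).trans (Finset.gcd_dvd hp)

end

end Pool.Agent.RT
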