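import Pool.Agent.Lib_helper49.RT.Step
import Pool.Agent.Lib_helper49.RT.NW
import Pool.Agent.Lib_helper35.RS4.Main4

/-!
# Amplification in `T`: the denominators
-/

namespace Pool.Agent.RT

set_option linter.unusedSectionVars false

open Pool.Agent.RSK Pool.Agent.RS2 Pool.Agent.RS3 Pool.Agent.RS4
open NumberField IsDedekindDomain Filter Topology Complex
open scoped TensorProduct

/-- the prime parts of a denominator -/
theorem amp_parts {B : Type} [AddCommGroup B] (L : AddSubgroup B) {N : ℕ} (hN : N ≠ 0) {z : B}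
    (h0 : N • z ∈ L) (h : ∀ p ∈ N.primeFactors, (N / p ^ N.factorization p) • z ∈ L) : z ∈ L := by
  have hmem : ∀ n : ℕ, n • z ∈ L ↔ addOrderOf (QuotientAddGroup.mk z : B ⧸ L) ∣ n := by
    intro n
    rw [addOrderOf_dvd_iff_nsmul_eq_zero, ← QuotientAddGroup.mk_nsmul,
      QuotientAddGroup.eq_zero_iff]
  by_cases h1 : addOrderOf (QuotientAddGroup.mk z : B ⧸ L) = 1
  · have h2 := (hmem 1).2 (by rw [h1])
    rwa [one_smul] at h2
  · exfalso
    obtain ⟨p, hp, hpd⟩ := Nat.exists_prime_and_dvd h1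
    have h2 : p ∈ N.primeFactors := Nat.mem_primeFactors.2 ⟨hp, hpd.trans ((hmem N).1 h0), hN⟩
    exact Nat.not_dvd_ordCompl hp hN (hpd.trans ((hmem _).1 (h p h2)))

section

variable {F H : Type} [Field F] [NumberField F] [Field H] [NumberField H] [Algebra F H]
  [IsGalois F H] {G : Type} [CommGroup G] [Fintype G] {ι : G ≃* (H ≃ₐ[F] H)}
  {S T : Finset (HeightOneSpectrum (𝓞 F))} {r : ℕ} {w : Fin r → Pl H}
  {fr : HeightOneSpectrum (𝓞 F) → G}

/-- There is an element with the right regulator and denominator `n`. -/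
def Good (n : ℕ) (ι : G ≃* (H ≃ₐ[F] H)) (S T : Finset (HeightOneSpectrum (𝓞 F)))
    (w : Fin r → Pl H) (fr : HeightOneSpectrum (𝓞 F) → G) : Prop :=
  ∃ c : (G →* ℂˣ) → ℂ, Lead S T r fr c ∧ ∃ u, Rat' ι S T w c u ∧ Den n ι S T u

/-- denominators do not grow -/
theorem den_step (hD : Data ι S T r w fr) {v : HeightOneSpectrum (𝓞 F)} (hv : v ∉ T)
    (hvS : v ∉ S) {n : ℤ} (hn : n ≠ 0)
    (h : ∀ u : UM ι S T, (n • u).val ∈ Un (ovr H S) (ovr H (Finset.cons v T hv))) {N : ℕ}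
    {u : (⋀[MonoidAlgebra ℤ G]^r (UM ι S T)) ⊗[ℤ] ℚ} (hu : Den N ι S T u) :
    Den N ι S (Finset.cons v T hv)
      (scl (((n : ℚ) ^ r)⁻¹) ((1 - MonoidAlgebra.single (fr v)⁻¹ (nv v : ℤ) :
        MonoidAlgebra ℤ G) • wq r (mulN ι S T hv n h) u)) := by
  have hfin := um_finite hD
  have htf := um_tf hD
  have hq := nv_two_le v
  obtain ⟨f, hf⟩ := res_T2 (ι := ι) (S := S) (hD.frob v hvS) hv hvS
  intro ψ
  exact ext_val (fun a ha => lc3_nzd (fr v)⁻¹ hq a ha) f
    (l3_inc ι S T hv) (l3_inc_inj hv) (fun u => (hf u).trans (l3_inc_range hv u).symm) n hn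
    (mulN ι S T hv n h) (fun m => UM.ext rfl) N u hu ψ

theorem good_cons (hD : Data ι S T r w fr) {v : HeightOneSpectrum (𝓞 F)} (hv : v ∉ T)
    (hvS : v ∉ S) {N : ℕ} (hg : Good N ι S T w fr) : Good N ι S (Finset.cons v T hv) w fr := by
  obtain ⟨c, hL, u, hu, hd⟩ := hg
  have hq := nv_two_le v
  have hn0 : (1 - (nv v : ℤ) ^ Nat.card G) ≠ 0 := lc3_pow_ne (Nat.card_pos (α := G)).ne' hq
  have hmem := nv_mul_mem (ι := ι) (S := S) (T := T) (hD.frob v hvS) hv hvS
  exact ⟨_, lead_addT hv hL, _, rat_step hv hn0 hmem hu, den_step hD hv hvS hn0 hmem hd⟩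

/-- the amplification -/
theorem den_amp (hD : Data ι S T r w fr) {v : HeightOneSpectrum (𝓞 F)} (hv : v ∉ T)
    (hvS : v ∉ S) {p a b M E n' : ℕ} (hp : p.Prime) (hM : a + b * r ≤ M)
    (hnv : p ^ M ∣ nv v - 1) (hEb : ¬ p ^ (b + 1) ∣ E) (hfr : fr v = 1)
    (hE0 : (E : ℤ) ≠ 0)
    (hmem : ∀ u : UM ι S T, ((E : ℤ) • u).val ∈ Un (ovr H S) (ovr H (Finset.cons v T hv)))
    {u : (⋀[MonoidAlgebra ℤ G]^r (UM ι S T)) ⊗[ℤ] ℚ} (hd : Den (p ^ a * n') ι S T u) :
    Den n' ι S (Finset.cons v T hv)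
      (scl ((((E : ℤ) : ℚ) ^ r)⁻¹) ((1 - MonoidAlgebra.single (fr v)⁻¹ (nv v : ℤ) :
        MonoidAlgebra ℤ G) • wq r (mulN ι S T hv E hmem) u)) := by
  intro ψ
  obtain ⟨a₁, ha₁⟩ := den_step hD hv hvS hE0 hmem hd ψ
  set J := mulN ι S T hv (E : ℤ) hmem with hJ
  obtain ⟨d, hdY⟩ := hd (fun i => (ψ i).comp J)
  set δ : MonoidAlgebra ℤ G := 1 - MonoidAlgebra.single (fr v)⁻¹ (nv v : ℤ) with hδ
  set Y := extQ ((toQ G).toAddMonoidHom.comp (detMap (fun i => (ψ i).comp J)).toAddMonoidHom) u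
    with hY
  set x := extQ ((toQ G).toAddMonoidHom.comp (detMap ψ).toAddMonoidHom)
    (scl ((((E : ℤ) : ℚ) ^ r)⁻¹) (δ • wq r J u)) with hx
  obtain ⟨K, hK⟩ := hnv
  have hnv' : nv v = 1 + p ^ M * K := by
    have := nv_two_le v
    omega
  have hEQ : (((E : ℤ) : ℚ) ^ r) ≠ 0 := pow_ne_zero _ (by exact_mod_cast hE0)
  have hx1 : x = (((E : ℤ) : ℚ) ^ r)⁻¹ • (toQ G δ * Y) := extQ_comp (toQ G) ψ J δ _ u
  have hδ1 : toQ G δ * Y = -((p ^ M * K) • Y) := by
    have h1 : MonoidAlgebra.single (1 : G) (nv v : ℤ) = (nv v : ℤ) • (1 : MonoidAlgebra ℤ G) := by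
      rw [MonoidAlgebra.one_def, MonoidAlgebra.smul_single]
      simp
    have h2 : δ = -((p ^ M * K : ℕ) • (1 : MonoidAlgebra ℤ G)) := by
      rw [hδ, hfr, inv_one, h1, hnv']
      push_cast
      rw [add_smul, one_smul, ← Nat.cast_pow, ← Nat.cast_mul, natCast_zsmul]
      abel
    rw [h2, map_neg, map_nsmul, map_one, neg_mul, smul_mul_assoc, one_mul]
  have hL1 : n' • x ∈ ((toQ G).toAddMonoidHom.range : AddSubgroup (MonoidAlgebra ℚ G)) := by
    refine amp_arith (p := p) (a := a) (m := M) (b := b) (r := r) (E := E) _ hp hEb hM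
      (y := -(K • toQ G d)) ?_ ?_ ?_
    · rw [smul_smul, ha₁]
      exact ⟨a₁, rfl⟩
    · have h3 : toQ G d ∈ ((toQ G).toAddMonoidHom.range : AddSubgroup (MonoidAlgebra ℚ G)) :=
        ⟨d, rfl⟩
      exact AddSubgroup.neg_mem _ (AddSubgroup.nsmul_mem _ h3 K)
    · rw [← hdY, hx1, hδ1]
      simp only [← Nat.cast_smul_eq_nsmul ℚ, smul_neg, smul_smul]
      congr 2
      push_cast at hEQ ⊢
      field_simp
  obtain ⟨a₂, ha₂⟩ := hL1
  exact ⟨a₂, ha₂.symm⟩

/-- removing a place -/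
theorem good_rm {v : HeightOneSpectrum (𝓞 F)} (hv : v ∉ T) {N : ℕ}
    (hg : Good N ι S (Finset.cons v T hv) w fr) :
    Good (N * (nv v ^ Nat.card G - 1)) ι S T w fr := by
  obtain ⟨c, hL, u, hu, hd⟩ := hg
  have hq := nv_two_le v
  set n : ℤ := 1 - (nv v : ℤ) ^ Nat.card G with hn
  have hn0 : n ≠ 0 := lc3_pow_ne (Nat.card_pos (α := G)).ne' hq
  set h : MonoidAlgebra ℤ G := ∑ i ∈ Finset.range (Nat.card G),
    (MonoidAlgebra.single (fr v)⁻¹ (nv v : ℤ)) ^ i with hh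
  refine ⟨_, lead_rmT hv hL, scl ((n : ℚ)⁻¹) (h • wq r (l3_inc ι S T hv) u),
    ⟨fun a ha => ?_, fun χ => ?_⟩, fun ψ => ?_⟩
  · have h1 : a • u = 0 := hu.er a fun χ hχ => ha χ
      (mul_ne_zero (inv_ne_zero (l3_ne χ (fr v) hq)) hχ)
    rw [smul_scl, smul_comm, ← wq_smul, h1, map_zero, smul_zero, map_zero]
  · have h1 : (detMap (fun i => wl ι S T (w i))).toAddMonoidHom.comp
        (exteriorPower.map r (l3_inc ι S T hv)).toAddMonoidHom =
          (detMap (fun i => wl ι S (Finset.cons v T hv) (w i))).toAddMonoidHom :=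
      AddMonoidHom.ext fun m => by
        show detMap (fun i => wl ι S T (w i)) (exteriorPower.map r (l3_inc ι S T hv) m) =
          detMap (fun i => wl ι S (Finset.cons v T hv) (w i)) m
        rw [detMap_comp]
        rfl
    rw [extQ_scl, extQ_smul _ h (toR G h), extQ_wq, h1, map_rat_smul, map_mul, hu.value χ]
    · have h2 : evR χ (toR G (1 - MonoidAlgebra.single (fr v)⁻¹ (nv v : ℤ))) * evR χ (toR G h) =
          (n : ℂ) := by
        rw [← map_mul, ← map_mul, hh, lc3_geom]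
        have h3 : toR G (MonoidAlgebra.single (1 : G) (1 - (nv v : ℤ) ^ Nat.card G)) =
            MonoidAlgebra.single (1 : G) ((n : ℤ) : ℝ) := by simp [toR, hn]
        rw [h3, evR, MonoidAlgebra.lift_single, map_one, Algebra.smul_def, mul_one]
        simp
      rw [evR_toR, map_inv] at h2
      have h4 : (((χ (fr v))⁻¹ : ℂˣ) : ℂ) = ((χ⁻¹ (fr v) : ℂˣ) : ℂ) := rfl
      rw [h4] at h2
      have h5 : 1 - ((χ⁻¹ (fr v) : ℂˣ) : ℂ) * (nv v : ℂ) ≠ 0 := l3_ne χ⁻¹ (fr v) hq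
      have h6 : (n : ℂ) ≠ 0 := by exact_mod_cast hn0
      rw [Rat.smul_def]
      push_cast at h2 ⊢
      have h7 : evR χ (toR G h) = (n : ℂ) * (1 - ((χ⁻¹ (fr v) : ℂˣ) : ℂ) * (nv v : ℂ))⁻¹ := by
        rw [← h2]
        field_simp
      rw [h7]
      field_simp
    · intro m
      show detMap (fun i => wl ι S T (w i)) (h • m) = toR G h *
        detMap (fun i => wl ι S T (w i)) m
      rw [map_smul, Algebra.smul_def]
      rfl
  · obtain ⟨a, ha⟩ := hd (fun i => (ψ i).comp (l3_inc ι S T hv))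
    refine ⟨-(h * a), ?_⟩
    have hnQ : (n : ℚ) ≠ 0 := by exact_mod_cast hn0
    have h1 : 1 ≤ nv v ^ Nat.card G := Nat.one_le_pow _ _ (by omega)
    have h2 : (((N * (nv v ^ Nat.card G - 1) : ℕ)) : ℚ) * (n : ℚ)⁻¹ = -(N : ℚ) := by
      have h3 : ((nv v ^ Nat.card G - 1 : ℕ) : ℚ) = -(n : ℚ) := by
        rw [hn]
        push_cast [Nat.cast_sub h1]
        ring
      rw [Nat.cast_mul, h3]
      field_simp
    rw [extQ_comp, ← Nat.cast_smul_eq_nsmul ℚ, smul_smul, h2, map_neg, map_mul, ← ha,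
      mul_smul_comm, neg_smul, Nat.cast_smul_eq_nsmul]

theorem good_rm_all [DecidableEq (HeightOneSpectrum (𝓞 F))]
    (V : Finset (HeightOneSpectrum (𝓞 F))) {N : ℕ} (h : Good N ι S (T ∪ V) w fr) :
    Good (N * ∏ v ∈ V, (nv v ^ Nat.card G - 1)) ι S T w fr := by
  induction V using Finset.induction_on generalizing N with
  | empty => rwa [Finset.union_empty, ← mul_one N] at h
  | insert v V hvV ih =>
    rw [Finset.union_insert] at h
    rw [Finset.prod_insert hvV, ← mul_assoc]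
    apply ih
    by_cases hv : v ∈ T ∪ V
    · rw [Finset.insert_eq_of_mem hv] at h
      obtain ⟨c, hL, u, hu, hd⟩ := h
      refine ⟨c, hL, u, hu, fun ψ => ?_⟩
      obtain ⟨a, ha⟩ := hd ψ
      refine ⟨(nv v ^ Nat.card G - 1) • a, ?_⟩
      rw [mul_comm, mul_smul, ha, map_nsmul]
    · rw [← Finset.cons_eq_insert v _ hv] at h
      exact good_rm hv h

/-- larger sets `T` -/
theorem data_mono (hD : Data ι S T r w fr) {T' : Finset (HeightOneSpectrum (𝓞 F))}
    (hT : T ⊆ T') (hd : Disjoint S T') : Data ι S T' r w fr := by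
  refine ⟨hd, hD.unram, ?_, hD.mem, hD.split, hD.inj, hD.all, hD.card, hD.frob⟩
  rcases hD.tors with ⟨v, hv, v', hv', h⟩ | ⟨v, hv, h⟩
  · exact Or.inl ⟨v, hT hv, v', hT hv', h⟩
  · exact Or.inr ⟨v, hT hv, h⟩

theorem good_union [DecidableEq (HeightOneSpectrum (𝓞 F))] (hD : Data ι S T r w fr) {N : ℕ}
    (hg : Good N ι S T w fr) (V : Finset (HeightOneSpectrum (𝓞 F))) (hV : Disjoint S V) :
    Good N ι S (T ∪ V) w fr := by
  induction V using Finset.induction_on with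
  | empty => rwa [Finset.union_empty]
  | insert v V hvV ih =>
    have h1 : Disjoint S V := hV.mono_right (Finset.subset_insert v V)
    have hvS : v ∉ S := fun h => Finset.disjoint_left.1 hV h (Finset.mem_insert_self v V)
    have h2 := ih h1
    rw [Finset.union_insert]
    by_cases hv : v ∈ T ∪ V
    · rwa [Finset.insert_eq_of_mem hv]
    · rw [← Finset.cons_eq_insert v _ hv]
      exact good_cons (data_mono hD Finset.subset_union_left
        (Finset.disjoint_union_right.2 ⟨hD.disj, h1⟩)) hv hvS h2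

theorem rubin_of_good (hD : Data ι S T r w fr) (hg : Good 1 ι S T w fr)
    {T' : Finset (HeightOneSpectrum (𝓞 F))} (hT : T ⊆ T') (hd : Disjoint S T') :
    Rubin ι S T' w fr := by
  classical
  have h := good_union hD hg T' hd
  rw [Finset.union_eq_right.2 hT] at h
  obtain ⟨c, hL, u, hu, hden⟩ := h
  exact rubin_of' hL hu hden

theorem stark_of_good {N : ℕ} (h : Good N ι S T w fr) : StarkQ ι S T w fr := by
  obtain ⟨c, hL, u, hu, -⟩ := h
  exact starkQ_of hL hu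

theorem good_of_stark (h : StarkQ ι S T w fr) : ∃ N : ℕ, N ≠ 0 ∧ Good N ι S T w fr := by
  obtain ⟨c, hL, u, hu⟩ := rat_of h
  obtain ⟨N, hN, hden⟩ := exists_den' u
  exact ⟨N, hN, c, hL, u, hu, hden⟩

/-- The denominators are bounded independently of `T`. -/
theorem good_unif (hD : Data ι S T r w fr) (h : StarkQ ι S T w fr) : ∃ N : ℕ, N ≠ 0 ∧
    ∀ T' : Finset (HeightOneSpectrum (𝓞 F)), Data ι S T' r w fr → Good N ι S T' w fr := by
  classical
  obtain ⟨N, hN, hg⟩ := good_of_stark h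
  refine ⟨N * ∏ v ∈ T, (nv v ^ Nat.card G - 1), mul_ne_zero hN ?_, fun T' hD' => ?_⟩
  · rw [Finset.prod_ne_zero_iff]
    intro v _
    have h2 : 1 < nv v ^ Nat.card G := one_lt_pow₀ (by
      have := nv_two_le v
      omega) (Nat.card_pos (α := G)).ne'
    omega
  · refine good_rm_all T ?_
    rw [Finset.union_comm]
    exact good_union hD hg T' hD'.disj

/-- The main theorem. -/
theorem most_of_good (hD : Data ι S T r w fr) {N : ℕ} (hN : N ≠ 0)
    (h : ∀ T' : Finset (HeightOneSpectrum (𝓞 F)), Data ι S T' r w fr → Good N ι S T' w fr) :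
    RubinMost ι S w fr := by
  classical
  obtain ⟨b, hb⟩ := exists_C hD N.primeFactors (fun p hp => Nat.prime_of_mem_primeFactors hp)
  obtain ⟨M, hM, C, hC, hCv⟩ := hb (∑ p ∈ N.primeFactors, (N.factorization p + b p * r))
  refine ⟨C, fun v hv => (hCv v hv).1, hC, fun T' v hv hD' hvC => ?_⟩
  obtain ⟨hvS, hfr, E, hE0, hEp, hKE⟩ := hCv v hvC
  obtain ⟨c, hL, u, hu, hd⟩ := h T' hD'
  have hE0' : (E : ℤ) ≠ 0 := by exact_mod_cast hE0
  have hmem : ∀ u : UM ι S T', ((E : ℤ) • u).val ∈ Un (ovr H S) (ovr H (Finset.cons v T' hv)) :=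
    zsmul_mem hv fun u W hW => hKE _ ⟨u.val_mem.1, fun W' hW' => by
      rw [mem_ovr] at hW'
      exact absurd hW' (Finset.notMem_empty _)⟩ W hW
  refine rubin_of' (lead_addT hv hL) (rat_step hv hE0' hmem hu) fun ψ => ?_
  rw [one_smul]
  set x := extQ ((toQ G).toAddMonoidHom.comp (detMap ψ).toAddMonoidHom)
    (scl ((((E : ℤ) : ℚ) ^ r)⁻¹) ((1 - MonoidAlgebra.single (fr v)⁻¹ (nv v : ℤ) :
        MonoidAlgebra ℤ G) • wq r (mulN ι S T' hv E hmem) u)) with hx
  have h1 : x ∈ ((toQ G).toAddMonoidHom.range : AddSubgroup (MonoidAlgebra ℚ G)) := by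
    refine amp_parts _ hN ?_ fun p hp => ?_
    · obtain ⟨a, ha⟩ := den_step hD' hv hvS hE0' hmem hd ψ
      exact ⟨a, ha.symm⟩
    · have hpM : N.factorization p + b p * r ≤ M p := by
        refine le_trans ?_ (hM p hp)
        exact Finset.single_le_sum (f := fun p => N.factorization p + b p * r)
          (fun _ _ => Nat.zero_le _) hp
      obtain ⟨a, ha⟩ := den_amp hD' hv hvS (Nat.prime_of_mem_primeFactors hp) hpM
        (hEp p hp).1 (hEp p hp).2 hfr hE0' hmem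
        (n' := N / p ^ N.factorization p) (by rwa [Nat.ordProj_mul_ordCompl_eq_self]) ψ
      exact ⟨a, ha.symm⟩
  obtain ⟨a, ha⟩ := h1
  exact ⟨a, ha.symm⟩

theorem stark_of_rubin (h : Rubin ι S T w fr) : StarkQ ι S T w fr := by
  obtain ⟨c, Θ, h1, h2, M, i1, i2, e, l, h3, u, h4⟩ := h
  exact ⟨c, Θ, h1, h2, M, i1, i2, e, l, h3, u, ⟨h4.er, h4.value⟩⟩

theorem stark_iff (hD : Data ι S T r w fr) : StarkQ ι S T w fr ↔ RubinMost ι S w fr := by
  classical
  constructor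
  · intro h
    obtain ⟨N, hN, hg⟩ := good_unif hD h
    exact most_of_good hD hN hg
  · rintro ⟨C, -, hC, h⟩
    obtain ⟨v, hvC, hv⟩ : ∃ v ∈ C, v ∉ T := by
      by_contra hcon
      push Not at hcon
      have hfin : Finite C := (T.finite_toSet.subset hcon).to_subtype
      exact hC (Summable.of_finite)
    obtain ⟨N, -, hg⟩ := good_of_stark (stark_of_rubin (h T v hv hD hvC))
    exact stark_of_good (good_rm hv hg)

theorem rubin_most (hD : Data ι S T r w fr) {p : ℕ} (hp : p.Prime) (hG : IsPGroup p G)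
    (hext : KumP p F H ∨ ∀ N : Subgroup G, IsCyclic (G ⧸ N) → Hol3 p N.index F (Kf ι N)) :
    RubinMost ι S w fr := by
  have hpf : Fact p.Prime := ⟨hp⟩
  obtain ⟨e, he⟩ := IsPGroup.iff_card.1 hG
  refine most_of_good hD (pow_pos hp.pos e).ne' fun T' hD' => ?_
  obtain ⟨c, hL, u, hu, hden⟩ := rat_of_up (rubin_main4 hp hG hD' hext (Or.inl (by rw [he])))
  exact ⟨c, hL, u, hu, hden⟩

end

end Pool.Agent.RT
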