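import Pool.Agent.Lib_helper17.RS.P_EX2
import Pool.Agent.Lib_helper35.RS4.D

/-!
# Amplification in `T`: exterior powers
-/

namespace Pool.Agent.RT

set_option linter.unusedSectionVars false

open Pool.Agent.RSK Pool.Agent.RS4
open scoped TensorProduct

section Wq

variable {R M M' A : Type} [CommRing R] [AddCommGroup M] [Module R M] [AddCommGroup M']
  [Module R M'] {r : ℕ}

/-- the map induced on `ℚ ⊗ ⋀^r` -/
noncomputable def wq (r : ℕ) (f : M →ₗ[R] M') : (⋀[R]^r M) ⊗[ℤ] ℚ →+ (⋀[R]^r M') ⊗[ℤ] ℚ :=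
  (TensorProduct.map ((exteriorPower.map r f).toAddMonoidHom.toIntLinearMap)
    (LinearMap.id : ℚ →ₗ[ℤ] ℚ)).toAddMonoidHom

theorem wq_tmul (f : M →ₗ[R] M') (m : ⋀[R]^r M) (q : ℚ) :
    wq r f (m ⊗ₜ[ℤ] q) = (exteriorPower.map r f m) ⊗ₜ[ℤ] q := rfl

theorem wq_smul (f : M →ₗ[R] M') (a : R) (u : (⋀[R]^r M) ⊗[ℤ] ℚ) :
    wq r f (a • u) = a • wq r f u := by
  induction u using TensorProduct.induction_on with
  | zero => rw [smul_zero, map_zero, smul_zero]
  | tmul m s =>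
    rw [TensorProduct.smul_tmul', wq_tmul, wq_tmul, TensorProduct.smul_tmul', map_smul]
  | add a b ha hb => rw [map_add, smul_add, smul_add, map_add, ha, hb]

theorem extQ_wq {B : Type} [AddCommGroup B] [Module ℚ B] (f : M →ₗ[R] M')
    (g : (⋀[R]^r M') →+ B) (u : (⋀[R]^r M) ⊗[ℤ] ℚ) :
    extQ g (wq r f u) = extQ (g.comp (exteriorPower.map r f).toAddMonoidHom) u := by
  induction u using TensorProduct.induction_on with
  | zero => rw [map_zero, map_zero, map_zero]
  | tmul m s => rw [wq_tmul, extQ_tmul, extQ_tmul]; rfl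
  | add a b ha hb => rw [map_add, map_add, map_add, ha, hb]

/-- `extQ g (a u) = b extQ g u` if `g (a m) = b g m` -/
theorem extQ_smul {B : Type} [CommRing B] [Module ℚ B] (g : (⋀[R]^r M) →+ B) (a : R) (b : B)
    (h : ∀ m, g (a • m) = b * g m) (u : (⋀[R]^r M) ⊗[ℤ] ℚ) :
    extQ g (a • u) = b * extQ g u := by
  induction u using TensorProduct.induction_on with
  | zero => rw [smul_zero, map_zero, mul_zero]
  | tmul m s =>
    rw [TensorProduct.smul_tmul', extQ_tmul, extQ_tmul, h]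
    exact (map_rat_smul (AddMonoidHom.mulLeft b) s (g m)).symm
  | add x y hx hy => rw [smul_add, map_add, map_add, hx, hy, mul_add]

/-- `extQ g = ∑ b_k extQ g_k` if `g = ∑ b_k g_k` -/
theorem extQ_sum {B K : Type} [Fintype K] [CommRing B] [Module ℚ B] (g : (⋀[R]^r M) →+ B)
    (gk : K → ((⋀[R]^r M) →+ B)) (b : K → B) (h : ∀ m, g m = ∑ k, b k * gk k m)
    (u : (⋀[R]^r M) ⊗[ℤ] ℚ) :
    extQ g u = ∑ k, b k * extQ (gk k) u := by
  induction u using TensorProduct.induction_on with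
  | zero =>
    rw [map_zero]
    exact (Finset.sum_eq_zero fun k _ => by rw [map_zero, mul_zero]).symm
  | tmul m s =>
    rw [extQ_tmul, h, Finset.smul_sum]
    refine Finset.sum_congr rfl fun k _ => ?_
    rw [extQ_tmul]
    exact (map_rat_smul (AddMonoidHom.mulLeft (b k)) s (gk k m)).symm
  | add x y hx hy =>
    rw [map_add, hx, hy, ← Finset.sum_add_distrib]
    refine Finset.sum_congr rfl fun k _ => ?_
    rw [map_add, mul_add]

/-- `extQ g = b extQ g'` if `g = b g'` -/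
theorem extQ_mul {B : Type} [CommRing B] [Module ℚ B] (g g' : (⋀[R]^r M) →+ B) (b : B)
    (h : ∀ m, g m = b * g' m) (u : (⋀[R]^r M) ⊗[ℤ] ℚ) : extQ g u = b * extQ g' u := by
  have h1 := extQ_sum g (fun _ : Unit => g') (fun _ => b) (fun m => by
    rw [h m, Fintype.sum_unique]) u
  rwa [Fintype.sum_unique] at h1

theorem detMap_comp [CommRing A] [Algebra R A] (l : Fin r → (M' →ₗ[R] A)) (f : M →ₗ[R] M')
    (m : ⋀[R]^r M) :
    detMap l (exteriorPower.map r f m) = detMap (fun i => (l i).comp f) m := by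
  have h : (detMap l).comp (exteriorPower.map r f) = detMap (fun i => (l i).comp f) := by
    apply exteriorPower.linearMap_ext
    ext v
    show detMap l (exteriorPower.map r f (exteriorPower.ιMulti R r v)) =
      detMap (fun i => (l i).comp f) (exteriorPower.ιMulti R r v)
    rw [exteriorPower.map_apply_ιMulti, detMap_ι, detMap_ι]
    rfl
  exact congrArg (fun F => F m) h

/-- the values of `ψ'_1 ∧ … ∧ ψ'_r` on the image of `u` -/
theorem extQ_comp {B : Type} [CommRing B] [Module ℚ B] (j : R →+* B)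
    (ψ' : Fin r → (M' →ₗ[R] R)) (J : M →ₗ[R] M') (δ : R) (q : ℚ) (u : (⋀[R]^r M) ⊗[ℤ] ℚ) :
    extQ (j.toAddMonoidHom.comp (detMap ψ').toAddMonoidHom) (scl q (δ • wq r J u)) =
      q • (j δ * extQ (j.toAddMonoidHom.comp
        (detMap (fun i => (ψ' i).comp J)).toAddMonoidHom) u) := by
  have h : (j.toAddMonoidHom.comp (detMap ψ').toAddMonoidHom).comp
      (exteriorPower.map r J).toAddMonoidHom = j.toAddMonoidHom.comp
        (detMap (fun i => (ψ' i).comp J)).toAddMonoidHom :=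
    AddMonoidHom.ext fun m => congrArg j (detMap_comp ψ' J m)
  rw [extQ_scl, extQ_smul _ δ (j δ), extQ_wq, h]
  intro m
  show j (detMap ψ' (δ • m)) = j δ * j (detMap ψ' m)
  rw [map_smul, smul_eq_mul, map_mul]

/-- common denominators -/
theorem exists_den {B : Type} [CommRing B] [Module ℚ B] (j : R →+* B)
    (u : (⋀[R]^r M) ⊗[ℤ] ℚ) : ∃ n : ℕ, n ≠ 0 ∧ ∀ g : (⋀[R]^r M) →+ R, ∃ a : R,
      n • extQ (j.toAddMonoidHom.comp g) u = j a := by
  induction u using TensorProduct.induction_on with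
  | zero => exact ⟨1, one_ne_zero, fun g => ⟨0, by rw [map_zero, smul_zero, map_zero]⟩⟩
  | tmul m s =>
    refine ⟨s.den, s.den_nz, fun g => ⟨s.num • g m, ?_⟩⟩
    rw [extQ_tmul, ← Nat.cast_smul_eq_nsmul ℚ, smul_smul, Rat.den_mul_eq_num, map_zsmul,
      ← Int.cast_smul_eq_zsmul ℚ]
    rfl
  | add x y hx hy =>
    obtain ⟨n, hn, h1⟩ := hx
    obtain ⟨k, hk, h2⟩ := hy
    refine ⟨n * k, mul_ne_zero hn hk, fun g => ?_⟩
    obtain ⟨a, ha⟩ := h1 g
    obtain ⟨b, hb⟩ := h2 g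
    refine ⟨k • a + n • b, ?_⟩
    rw [map_add, map_add, map_nsmul, map_nsmul, smul_add, ← ha, ← hb, smul_smul, smul_smul,
      mul_comm k n]

end Wq

section Ext

variable {G : Type} [CommGroup G] [Fintype G]

/-- `ext_T` with coefficients which do not depend on the vectors -/
theorem ext_T' {M M' : Type} [AddCommGroup M] [Module (MonoidAlgebra ℤ G) M]
    [AddCommGroup M'] [Module (MonoidAlgebra ℤ G) M']
    [Module.Finite ℤ M] [Module.IsTorsionFree ℤ M] {δ : MonoidAlgebra ℤ G}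
    (hδ : ∀ a : MonoidAlgebra ℤ G, δ * a = 0 → a = 0)
    (f : M →ₗ[MonoidAlgebra ℤ G] (MonoidAlgebra ℤ G ⧸ Ideal.span {δ}))
    (j : M' →ₗ[MonoidAlgebra ℤ G] M) (hj : Function.Injective j)
    (hker : ∀ u, f u = 0 ↔ u ∈ LinearMap.range j) {r : ℕ}
    (ψ' : Fin r → (M' →ₗ[MonoidAlgebra ℤ G] MonoidAlgebra ℤ G)) :
    ∃ (a : Option (Fin r) → MonoidAlgebra ℤ G)
      (ψ : Option (Fin r) → Fin r → (M →ₗ[MonoidAlgebra ℤ G] MonoidAlgebra ℤ G)),
      ∀ (n : ℤ) (e : Fin r → M) (e' : Fin r → M'), (∀ i, j (e' i) = n • e i) →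
      δ * Matrix.det (Matrix.of fun i j => ψ' i (e' j)) =
        n ^ r • ∑ k, a k * Matrix.det (Matrix.of fun i j => ψ k i (e j)) := by
  classical
  obtain ⟨φ0, ψ0, h0, h1⟩ := ex2_main hδ f (Submodule.mkQ (Ideal.span {δ}))
    (Submodule.mkQ_surjective _) (by
      intro a
      rw [Submodule.mkQ_apply, Submodule.Quotient.mk_eq_zero, Ideal.mem_span_singleton']
      constructor
      · rintro ⟨b, hb⟩; exact ⟨b, by rw [← hb, mul_comm]⟩
      · rintro ⟨b, hb⟩; exact ⟨b, by rw [hb, mul_comm]⟩) j hj hker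
  choose c ψ hψ using h1
  refine ⟨fun k => k.elim δ (fun i => c (ψ' i)),
    fun k => k.elim (fun i => ψ (ψ' i)) (fun l i => if i = l then ψ0 else ψ (ψ' i)), ?_⟩
  intro n e e' he
  have hmat : (Matrix.of fun i k => ψ' i (e' k)) =
      Matrix.of fun i k => (Matrix.of fun i k => n • ψ (ψ' i) (e k)) i k + c (ψ' i) * φ0 (e' k) := by
    ext1 i k
    show ψ' i (e' k) = n • ψ (ψ' i) (e k) + c (ψ' i) * φ0 (e' k)
    rw [hψ (ψ' i) (e' k), he, map_zsmul]
  rw [hmat, ex2_det, Fintype.sum_option, mul_add, Finset.mul_sum, smul_add, Finset.smul_sum]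
  congr 1
  · show δ * (Matrix.of fun i k => n • ψ (ψ' i) (e k)).det =
      n ^ r • (δ * (Matrix.of fun i k => ψ (ψ' i) (e k)).det)
    have : (Matrix.of fun i k => n • ψ (ψ' i) (e k)) =
        (n : MonoidAlgebra ℤ G) • (Matrix.of fun i k => ψ (ψ' i) (e k)) := by
      ext1 i k
      show n • ψ (ψ' i) (e k) = (n : MonoidAlgebra ℤ G) * ψ (ψ' i) (e k)
      rw [zsmul_eq_mul]
    rw [this, Matrix.det_smul, Fintype.card_fin, zsmul_eq_mul, Int.cast_pow]
    ring
  · apply Finset.sum_congr rfl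
    intro l _
    show δ * (c (ψ' l) * (Matrix.updateRow (Matrix.of fun i k => n • ψ (ψ' i) (e k)) l
      (fun k => φ0 (e' k))).det) = n ^ r • (c (ψ' l) *
        (Matrix.of fun i k => (if i = l then ψ0 else ψ (ψ' i)) (e k)).det)
    have h2 : δ * (Matrix.updateRow (Matrix.of fun i k => n • ψ (ψ' i) (e k)) l
        (fun k => φ0 (e' k))).det =
        (Matrix.updateRow (Matrix.of fun i k => n • ψ (ψ' i) (e k)) l
        (δ • (fun k => φ0 (e' k)))).det := by
      rw [Matrix.det_updateRow_smul]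
    have h3 : (Matrix.updateRow (Matrix.of fun i k => n • ψ (ψ' i) (e k)) l
        (δ • (fun k => φ0 (e' k)))) = (n : MonoidAlgebra ℤ G) •
        (Matrix.of fun i k => (if i = l then ψ0 else ψ (ψ' i)) (e k)) := by
      ext1 i k
      rw [Matrix.updateRow_apply, Matrix.smul_apply, Matrix.of_apply, Matrix.of_apply, smul_eq_mul]
      by_cases hi : i = l
      · rw [if_pos hi, if_pos hi, Pi.smul_apply, smul_eq_mul, h0, he, map_zsmul, zsmul_eq_mul]
      · rw [if_neg hi, if_neg hi, zsmul_eq_mul]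
    rw [mul_left_comm, h2, h3, Matrix.det_smul, Fintype.card_fin, zsmul_eq_mul, Int.cast_pow]
    ring

/-- The values of `ψ'_1 ∧ … ∧ ψ'_r` on `n^{-r} δ u`. -/
theorem ext_val {M M' : Type} [AddCommGroup M] [Module (MonoidAlgebra ℤ G) M]
    [AddCommGroup M'] [Module (MonoidAlgebra ℤ G) M']
    [Module.Finite ℤ M] [Module.IsTorsionFree ℤ M] {δ : MonoidAlgebra ℤ G}
    (hδ : ∀ a : MonoidAlgebra ℤ G, δ * a = 0 → a = 0)
    (f : M →ₗ[MonoidAlgebra ℤ G] (MonoidAlgebra ℤ G ⧸ Ideal.span {δ}))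
    (j : M' →ₗ[MonoidAlgebra ℤ G] M) (hj : Function.Injective j)
    (hker : ∀ u, f u = 0 ↔ u ∈ LinearMap.range j) {r : ℕ}
    (n : ℤ) (hn : n ≠ 0) (J : M →ₗ[MonoidAlgebra ℤ G] M') (hJ : ∀ m, j (J m) = n • m)
    (N : ℕ) (u : (⋀[MonoidAlgebra ℤ G]^r M) ⊗[ℤ] ℚ)
    (hu : ∀ ψ : Fin r → (M →ₗ[MonoidAlgebra ℤ G] MonoidAlgebra ℤ G),
      ∃ a : MonoidAlgebra ℤ G,
        N • extQ ((toQ G).toAddMonoidHom.comp (detMap ψ).toAddMonoidHom) u = toQ G a)
    (ψ' : Fin r → (M' →ₗ[MonoidAlgebra ℤ G] MonoidAlgebra ℤ G)) :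
    ∃ a : MonoidAlgebra ℤ G,
      N • extQ ((toQ G).toAddMonoidHom.comp (detMap ψ').toAddMonoidHom)
        (scl (((n : ℚ) ^ r)⁻¹) (δ • wq r J u)) = toQ G a := by
  obtain ⟨a, ψ, h⟩ := ext_T' hδ f j hj hker ψ'
  have h1 : ∀ m : ⋀[MonoidAlgebra ℤ G]^r M, δ * detMap (fun i => (ψ' i).comp J) m =
      n ^ r • ∑ k, a k * detMap (ψ k) m := by
    have h2 : δ • detMap (fun i => (ψ' i).comp J) =
        n ^ r • ∑ k, a k • detMap (ψ k) := by
      apply exteriorPower.linearMap_ext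
      ext1 v
      have h3 := h n v (fun i => J (v i)) (fun i => hJ (v i))
      show δ * detMap (fun i => (ψ' i).comp J) (exteriorPower.ιMulti _ r v) =
        (n ^ r • ∑ k, a k • detMap (ψ k)) (exteriorPower.ιMulti _ r v)
      rw [LinearMap.smul_apply, LinearMap.sum_apply, detMap_ι]
      refine h3.trans ?_
      congr 1
      refine Finset.sum_congr rfl fun k _ => ?_
      rw [LinearMap.smul_apply, detMap_ι]
      rfl
    intro m
    have h3 := congrArg (fun F => F m) h2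
    refine h3.trans ?_
    show (n ^ r • ∑ k, a k • detMap (ψ k)) m = _
    rw [LinearMap.smul_apply, LinearMap.sum_apply]
    rfl
  choose b hb using fun k => hu (ψ k)
  refine ⟨∑ k, a k * b k, ?_⟩
  have hnQ : ((n : ℚ) ^ r) ≠ 0 := pow_ne_zero _ (by exact_mod_cast hn)
  set E : Option (Fin r) → MonoidAlgebra ℚ G := fun k =>
    extQ ((toQ G).toAddMonoidHom.comp (detMap (ψ k)).toAddMonoidHom) u with hE
  have e1 : toQ G δ * extQ ((toQ G).toAddMonoidHom.comp
        (detMap (fun i => (ψ' i).comp J)).toAddMonoidHom) u =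
      ((n : ℚ) ^ r) • ∑ k, toQ G (a k) * E k := by
    have g1 := extQ_mul ((AddMonoidHom.mulLeft (toQ G δ)).comp ((toQ G).toAddMonoidHom.comp
      (detMap (fun i => (ψ' i).comp J)).toAddMonoidHom)) ((toQ G).toAddMonoidHom.comp
        (detMap (fun i => (ψ' i).comp J)).toAddMonoidHom) (toQ G δ) (fun m => rfl) u
    have g2 := extQ_sum ((AddMonoidHom.mulLeft (toQ G δ)).comp ((toQ G).toAddMonoidHom.comp
      (detMap (fun i => (ψ' i).comp J)).toAddMonoidHom))
      (fun k => (toQ G).toAddMonoidHom.comp (detMap (ψ k)).toAddMonoidHom)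
      (fun k => toQ G (n ^ r • a k)) (fun m => by
        show toQ G δ * toQ G (detMap (fun i => (ψ' i).comp J) m) =
          ∑ k, toQ G (n ^ r • a k) * toQ G (detMap (ψ k) m)
        rw [← map_mul, h1 m, Finset.smul_sum, map_sum]
        refine Finset.sum_congr rfl fun k _ => ?_
        rw [← map_mul, smul_mul_assoc]) u
    rw [← g1, g2, Finset.smul_sum]
    refine Finset.sum_congr rfl fun k _ => ?_
    rw [map_zsmul, smul_mul_assoc, ← Int.cast_smul_eq_zsmul ℚ, Int.cast_pow]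
  rw [extQ_comp, e1, smul_smul, inv_mul_cancel₀ hnQ, one_smul, Finset.smul_sum, map_sum]
  refine Finset.sum_congr rfl fun k _ => ?_
  rw [← mul_smul_comm, map_mul, ← hb k]

end Ext

section Arith

theorem amp_cop {B : Type} [AddCommGroup B] (L : AddSubgroup B) {k l : ℕ}
    (h : Nat.Coprime k l) {z : B} (h1 : k • z ∈ L) (h2 : l • z ∈ L) : z ∈ L := by
  obtain ⟨a, b, hab⟩ := Nat.isCoprime_iff_coprime.2 h
  have h3 : z = a • (k • z) + b • (l • z) := by
    rw [← natCast_zsmul, ← natCast_zsmul, smul_smul, smul_smul, ← add_smul, hab, one_smul]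
  rw [h3]
  exact L.add_mem (L.zsmul_mem h1 a) (L.zsmul_mem h2 b)

theorem amp_arith {B : Type} [AddCommGroup B] [Module ℚ B] (L : AddSubgroup B)
    {p a m b r E : ℕ} (hp : p.Prime) (hE : ¬ p ^ (b + 1) ∣ E) (hm : a + b * r ≤ m) {z y : B}
    (h1 : p ^ a • z ∈ L) (hy : y ∈ L) (h2 : (p ^ a * E ^ r) • z = p ^ m • y) : z ∈ L := by
  have hE0 : E ≠ 0 := fun h => hE (h ▸ dvd_zero _)
  obtain ⟨s, e, he, hEe⟩ := Nat.exists_eq_pow_mul_and_not_dvd hE0 p hp.ne_one
  have hs : s ≤ b := by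
    by_contra hcon
    exact hE (by rw [hEe]; exact (pow_dvd_pow p (by omega)).mul_right e)
  have h4 : a + s * r ≤ m := le_trans (Nat.add_le_add_left (Nat.mul_le_mul_right r hs) a) hm
  have h3 : e ^ r • z = p ^ (m - (a + s * r)) • y := by
    have h5 : p ^ (a + s * r) • (e ^ r • z) = p ^ (a + s * r) • (p ^ (m - (a + s * r)) • y) := by
      rw [smul_smul, smul_smul, ← pow_add, Nat.add_sub_cancel' h4, ← h2, hEe]
      congr 1
      rw [mul_pow, ← pow_mul, pow_add]
      ring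
    have h6 : (((p ^ (a + s * r) : ℕ) : ℚ)) ≠ 0 := by
      exact_mod_cast (pow_pos hp.pos _).ne'
    rw [← Nat.cast_smul_eq_nsmul ℚ, ← Nat.cast_smul_eq_nsmul ℚ (p ^ (a + s * r))] at h5
    have h7 := congrArg (fun t => (((p ^ (a + s * r) : ℕ) : ℚ))⁻¹ • t) h5
    simp only [smul_smul, inv_mul_cancel₀ h6, one_smul] at h7
    exact h7
  refine amp_cop L ?_ h1 (h3 ▸ L.nsmul_mem hy _)
  exact Nat.Coprime.pow _ _ ((Nat.Prime.coprime_iff_not_dvd hp).2 he)

end Arith

end Pool.Agent.RT
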