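import Pool.Agent.Lib_helper49.RT.Defs
import Pool.Agent.Lib_helper49.RT.Alg
import Pool.Agent.Lib_helper35.RS2.P_LC3
import Pool.Agent.Lib_helper35.RS4.D

/-!
# Amplification in `T`: adding a place to `T`
-/

namespace Pool.Agent.RT

set_option linter.unusedSectionVars false

open Pool.Agent.RSK Pool.Agent.RS2 Pool.Agent.RS4
open NumberField IsDedekindDomain Filter Topology Complex
open scoped TensorProduct

section

variable {F H : Type} [Field F] [NumberField F] [Field H] [NumberField H] [Algebra F H]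
  [IsGalois F H] {G : Type} [CommGroup G] [Fintype G] {ι : G ≃* (H ≃ₐ[F] H)}
  {S T : Finset (HeightOneSpectrum (𝓞 F))} {r : ℕ} {w : Fin r → Pl H}
  {fr : HeightOneSpectrum (𝓞 F) → G}

/-- the element `u ∈ ℚ ⊗ ⋀^r U_{S,T}` has the right regulator -/
structure Rat' (ι : G ≃* (H ≃ₐ[F] H)) (S T : Finset (HeightOneSpectrum (𝓞 F)))
    (w : Fin r → Pl H) (c : (G →* ℂˣ) → ℂ)
    (u : (⋀[MonoidAlgebra ℤ G]^r (UM ι S T)) ⊗[ℤ] ℚ) : Prop where
  er : ∀ a : MonoidAlgebra ℤ G, (∀ χ, c χ ≠ 0 → evZ χ a = 0) → a • u = 0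
  value : ∀ χ : G →* ℂˣ,
    evR χ (extQ (detMap (fun i => wl ι S T (w i))).toAddMonoidHom u) = c χ⁻¹

/-- `n u` is in Rubin's lattice -/
def Den (n : ℕ) (ι : G ≃* (H ≃ₐ[F] H)) (S T : Finset (HeightOneSpectrum (𝓞 F)))
    (u : (⋀[MonoidAlgebra ℤ G]^r (UM ι S T)) ⊗[ℤ] ℚ) : Prop :=
  ∀ ψ : Fin r → (UM ι S T →ₗ[MonoidAlgebra ℤ G] MonoidAlgebra ℤ G), ∃ a : MonoidAlgebra ℤ G,
    n • extQ ((toQ G).toAddMonoidHom.comp (detMap ψ).toAddMonoidHom) u = toQ G a

/-- the isomorphism with `U_{S,T}` -/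
theorem isMod_lin {M : Type} [AddCommGroup M] [Module (MonoidAlgebra ℤ G) M] {e : M → Hˣ}
    {l : Fin r → (M →ₗ[MonoidAlgebra ℤ G] MonoidAlgebra ℝ G)} (h : IsMod ι S T w e l) :
    ∃ Φ : M →ₗ[MonoidAlgebra ℤ G] UM ι S T, (∀ m, (Φ m).val = e m) ∧
      ∀ i m, l i m = wl ι S T (w i) (Φ m) := by
  have hm : ∀ m, e m ∈ Un (ovr H S) (ovr H T) := fun m => (isU_iff S T _).2 ((h.range _).1 ⟨m, rfl⟩)
  let φ : M →+ UM ι S T :=
    { toFun := fun m => UM.mk (e m) (hm m)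
      map_zero' := UM.ext (by
        rw [UM.val_mk, UM.val_zero]
        have h1 := h.add 0 0
        rw [add_zero] at h1
        exact (mul_eq_left.1 h1.symm))
      map_add' := fun m n => UM.ext (by
        rw [UM.val_add, UM.val_mk, UM.val_mk, UM.val_mk, h.add]) }
  have hφ : ∀ m, (φ m).val = e m := fun m => rfl
  have hsm : ∀ (a : MonoidAlgebra ℤ G) (m : M), φ (a • m) = a • φ m := by
    intro a
    induction a using MonoidAlgebra.induction_on with
    | of g =>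
      intro m
      have h1 : MonoidAlgebra.of ℤ G g = MonoidAlgebra.single g 1 := rfl
      apply UM.ext
      rw [h1, um_single_smul, hφ, hφ, h.smul]
    | add a b ha hb => intro m; rw [add_smul, map_add, ha, hb, add_smul]
    | smul c a ha =>
      intro m
      have h1 : (c • a) • m = c • (a • m) := smul_assoc c a m
      have h2 : (c • a) • φ m = c • (a • φ m) := smul_assoc c a _
      rw [h1, map_zsmul, ha, h2]
  refine ⟨{ toFun := φ, map_add' := map_add φ, map_smul' := hsm }, hφ, fun i m => ?_⟩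
  rw [h.log]
  rfl

theorem detMap_lin {M : Type} [AddCommGroup M] [Module (MonoidAlgebra ℤ G) M]
    {l : Fin r → (M →ₗ[MonoidAlgebra ℤ G] MonoidAlgebra ℝ G)}
    (Φ : M →ₗ[MonoidAlgebra ℤ G] UM ι S T) (hl : ∀ i m, l i m = wl ι S T (w i) (Φ m)) :
    (detMap (fun i => wl ι S T (w i))).toAddMonoidHom.comp
      (exteriorPower.map r Φ).toAddMonoidHom = (detMap l).toAddMonoidHom := by
  have h5 : (fun i => (wl ι S T (w i)).comp Φ) = l := by
    funext i
    exact LinearMap.ext fun m => (hl i m).symm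
  exact AddMonoidHom.ext fun m => by
    show detMap (fun i => wl ι S T (w i)) (exteriorPower.map r Φ m) = detMap l m
    rw [detMap_comp, h5]

/-- transport to `U_{S,T}` -/
theorem rat_of (h : StarkQ ι S T w fr) : ∃ c : (G →* ℂˣ) → ℂ, Lead S T r fr c ∧
    ∃ u, Rat' ι S T w c u := by
  obtain ⟨c, Θ, h1, h2, M, _, _, e, l, h3, u, h4⟩ := h
  obtain ⟨Φ, hΦ, hl⟩ := isMod_lin h3
  refine ⟨c, h1, wq r Φ u, fun a ha => ?_, fun χ => ?_⟩
  · rw [← wq_smul, h4.er a ha, map_zero]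
  · rw [extQ_wq, ← h2 χ, ← h4.value, detMap_lin Φ hl]

theorem rat_of_up {n : ℕ} (h : RubinUp n ι S T w fr) : ∃ c : (G →* ℂˣ) → ℂ, Lead S T r fr c ∧
    ∃ u, Rat' ι S T w c u ∧ Den n ι S T u := by
  obtain ⟨c, Θ, h1, h2, M, _, _, e, l, h3, u, h4⟩ := h
  obtain ⟨Φ, hΦ, hl⟩ := isMod_lin h3
  refine ⟨c, h1, wq r Φ u, ⟨fun a ha => ?_, fun χ => ?_⟩, fun ψ => ?_⟩
  · rw [← wq_smul, h4.er a ha, map_zero]
  · rw [extQ_wq, ← h2 χ, ← h4.value, detMap_lin Φ hl]
  · obtain ⟨a, ha⟩ := h4.integral (fun i => (ψ i).comp Φ)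
    refine ⟨a, ?_⟩
    have h5 : ((toQ G).toAddMonoidHom.comp (detMap ψ).toAddMonoidHom).comp
        (exteriorPower.map r Φ).toAddMonoidHom = (toQ G).toAddMonoidHom.comp
          (detMap (fun i => (ψ i).comp Φ)).toAddMonoidHom := AddMonoidHom.ext fun m => by
      show toQ G (detMap ψ (exteriorPower.map r Φ m)) = toQ G (detMap (fun i => (ψ i).comp Φ) m)
      rw [detMap_comp]
    rw [← ha, extQ_wq, h5]

theorem exists_den' (u : (⋀[MonoidAlgebra ℤ G]^r (UM ι S T)) ⊗[ℤ] ℚ) :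
    ∃ n : ℕ, n ≠ 0 ∧ Den n ι S T u := by
  obtain ⟨n, hn, h⟩ := exists_den (toQ G) u
  exact ⟨n, hn, fun ψ => h (detMap ψ).toAddMonoidHom⟩

/-- from `U_{S,T}` to the statements -/
theorem rubin_of' {c : (G →* ℂˣ) → ℂ} (hL : Lead S T r fr c)
    {u : (⋀[MonoidAlgebra ℤ G]^r (UM ι S T)) ⊗[ℤ] ℚ} (hu : Rat' ι S T w c u)
    (hd : Den 1 ι S T u) : Rubin ι S T w fr := by
  refine rubin_of ι S T w fr ⟨c, hL, u, fun ψ => ?_, hu.er, hu.value⟩
  obtain ⟨a, ha⟩ := hd ψ
  exact ⟨a, by rw [← ha, one_smul]⟩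

theorem starkQ_of {c : (G →* ℂˣ) → ℂ} (hL : Lead S T r fr c)
    {u : (⋀[MonoidAlgebra ℤ G]^r (UM ι S T)) ⊗[ℤ] ℚ} (hu : Rat' ι S T w c u) :
    StarkQ ι S T w fr := by
  refine ⟨c, extQ (detMap (fun i => wl ι S T (w i))).toAddMonoidHom u, hL, hu.value,
    UM ι S T, inferInstance, inferInstance, fun m => m.val, fun i => wl ι S T (w i),
    ⟨?_, ?_, ?_, ?_, ?_⟩, u, ⟨hu.er, rfl⟩⟩
  · intro m n hmn
    exact UM.ext hmn
  · intro x
    rw [← isU_iff]
    constructor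
    · rintro ⟨m, rfl⟩
      exact m.val_mem
    · intro hx
      exact ⟨UM.mk x hx, UM.val_mk x hx⟩
  · intro m n
    exact UM.val_add m n
  · intro g m
    exact um_single_smul ι S T g m
  · intro i m
    rfl

theorem lead_addT {v : HeightOneSpectrum (𝓞 F)} (hv : v ∉ T) {c : (G →* ℂˣ) → ℂ}
    (hc : Lead S T r fr c) : Lead S (Finset.cons v T hv) r fr
      (fun χ => (1 - (χ (fr v) : ℂ) * (nv v : ℂ)) * c χ) := by
  intro χ
  obtain ⟨Λ, h1, h2, h3⟩ := hc χ
  refine ⟨fun s => (1 - (χ (fr v) : ℂ) * (nv v : ℂ) ^ (1 - s)) * Λ s, ?_, ?_, ?_⟩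
  · exact (le_mero_pow v _ 1).mul h1
  · intro s hs
    beta_reduce
    rw [h2 s hs, lst_consT hv χ s]
  · have h5 := (le_cont v (χ (fr v) : ℂ) 1).mul h3
    simp only [Complex.cpow_one] at h5
    refine h5.congr fun s => ?_
    show _ * (Λ s / s ^ r) = _ * Λ s / s ^ r
    rw [mul_div_assoc]

theorem lead_rmT {v : HeightOneSpectrum (𝓞 F)} (hv : v ∉ T) {c : (G →* ℂˣ) → ℂ}
    (hc : Lead S (Finset.cons v T hv) r fr c) : Lead S T r fr
      (fun χ => (1 - (χ (fr v) : ℂ) * (nv v : ℂ))⁻¹ * c χ) := by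
  intro χ
  obtain ⟨Λ, h1, h2, h3⟩ := hc χ
  have hne : 1 - (χ (fr v) : ℂ) * (nv v : ℂ) ≠ 0 := l3_ne χ (fr v) (nv_two_le v)
  refine ⟨fun s => Λ s / (1 - (χ (fr v) : ℂ) * (nv v : ℂ) ^ (1 - s)), ?_, ?_, ?_⟩
  · exact h1.div (le_mero_pow v _ 1)
  · intro s hs
    have hf0 : 1 - (χ (fr v) : ℂ) * (nv v : ℂ) ^ (1 - s) ≠ 0 :=
      le_factor v χ (by rw [Complex.sub_re, Complex.one_re]; linarith)
    beta_reduce
    rw [h2 s hs, lst_consT hv χ s]
    field_simp
  · have h5 := h3.div (le_cont v (χ (fr v) : ℂ) 1) (by simpa using hne)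
    simp only [Complex.cpow_one] at h5
    have h6 : c χ / (1 - (χ (fr v) : ℂ) * (nv v : ℂ)) =
        (1 - (χ (fr v) : ℂ) * (nv v : ℂ))⁻¹ * c χ := by rw [div_eq_mul_inv, mul_comm]
    show Tendsto _ _ (𝓝 ((1 - (χ (fr v) : ℂ) * (nv v : ℂ))⁻¹ * c χ))
    rw [← h6]
    refine h5.congr fun s => ?_
    show Λ s / s ^ r / _ = Λ s / _ / s ^ r
    rw [div_right_comm]

/-- the map `x ↦ n x` to `U_{S,T ∪ {v}}` -/
noncomputable def mulN (ι : G ≃* (H ≃ₐ[F] H)) (S T : Finset (HeightOneSpectrum (𝓞 F)))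
    {v : HeightOneSpectrum (𝓞 F)} (hv : v ∉ T) (n : ℤ)
    (h : ∀ u : UM ι S T, (n • u).val ∈ Un (ovr H S) (ovr H (Finset.cons v T hv))) :
    UM ι S T →ₗ[MonoidAlgebra ℤ G] UM ι S (Finset.cons v T hv) where
  toFun u := UM.mk (n • u).val (h u)
  map_add' u u' := UM.ext (by
    rw [UM.val_add, UM.val_mk, UM.val_mk, UM.val_mk, smul_add, UM.val_add])
  map_smul' a u := UM.ext (by
    rw [UM.val_mk, RingHom.id_apply, smul_comm n a u]
    exact l3_smul_val a _ _ rfl)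

/-- determinants of multiples -/
theorem detMap_zsmul {M A : Type} [AddCommGroup M] [Module (MonoidAlgebra ℤ G) M] [CommRing A]
    [Algebra (MonoidAlgebra ℤ G) A] (n : ℤ) (l : Fin r → (M →ₗ[MonoidAlgebra ℤ G] A))
    (m : ⋀[MonoidAlgebra ℤ G]^r M) :
    detMap (fun i => n • l i) m = n ^ r • detMap l m := by
  have h : detMap (fun i => n • l i) = n ^ r • detMap l := by
    apply exteriorPower.linearMap_ext
    ext1 v
    show detMap (fun i => n • l i) (exteriorPower.ιMulti _ r v) =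
      n ^ r • detMap l (exteriorPower.ιMulti _ r v)
    rw [detMap_ι, detMap_ι]
    have : (Matrix.of fun i j => (n • l i) (v j)) =
        (n : A) • (Matrix.of fun i j => l i (v j)) := by
      ext1 i j
      show n • l i (v j) = (n : A) * l i (v j)
      rw [zsmul_eq_mul]
    rw [this, Matrix.det_smul, Fintype.card_fin, zsmul_eq_mul, Int.cast_pow]
  exact congrArg (fun F => F m) h

theorem evR_toR (χ : G →* ℂˣ) (g : G) (q : ℤ) :
    evR χ (toR G (1 - MonoidAlgebra.single g q)) = 1 - (χ g : ℂ) * q := by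
  have h1 : toR G (MonoidAlgebra.single g q) = MonoidAlgebra.single g (q : ℝ) := by simp [toR]
  have h2 : evR χ (MonoidAlgebra.single g (q : ℝ)) = (χ g : ℂ) * q := by
    rw [evR, MonoidAlgebra.lift_single, Algebra.smul_def, mul_comm]
    simp
  rw [map_sub, map_sub, map_one, map_one, h1, h2]

/-- The image of an element with the right regulator. -/
theorem rat_step {v : HeightOneSpectrum (𝓞 F)} (hv : v ∉ T) {n : ℤ} (hn : n ≠ 0)
    (h : ∀ u : UM ι S T, (n • u).val ∈ Un (ovr H S) (ovr H (Finset.cons v T hv)))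
    {c : (G →* ℂˣ) → ℂ} {u : (⋀[MonoidAlgebra ℤ G]^r (UM ι S T)) ⊗[ℤ] ℚ}
    (hu : Rat' ι S T w c u) :
    Rat' ι S (Finset.cons v T hv) w (fun χ => (1 - (χ (fr v) : ℂ) * (nv v : ℂ)) * c χ)
      (scl (((n : ℚ) ^ r)⁻¹) ((1 - MonoidAlgebra.single (fr v)⁻¹ (nv v : ℤ) :
        MonoidAlgebra ℤ G) • wq r (mulN ι S T hv n h) u)) := by
  set δ : MonoidAlgebra ℤ G := 1 - MonoidAlgebra.single (fr v)⁻¹ (nv v : ℤ) with hδ
  set J := mulN ι S T hv n h with hJ
  constructor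
  · intro a ha
    have h1 : a • u = 0 := hu.er a fun χ hχ => ha χ (mul_ne_zero (l3_ne χ (fr v) (nv_two_le v)) hχ)
    rw [smul_scl, smul_comm, ← wq_smul, h1, map_zero, smul_zero, map_zero]
  · intro χ
    have hnQ : ((n : ℚ) ^ r) ≠ 0 := pow_ne_zero _ (by exact_mod_cast hn)
    have h1 : extQ (detMap (fun i => wl ι S (Finset.cons v T hv) (w i))).toAddMonoidHom
        (wq r J u) = ((n : ℚ) ^ r) • extQ (detMap (fun i => wl ι S T (w i))).toAddMonoidHom u := by
      rw [extQ_wq]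
      have h2 := extQ_mul (((detMap (fun i => wl ι S (Finset.cons v T hv)
        (w i))).toAddMonoidHom).comp (exteriorPower.map r J).toAddMonoidHom)
        (detMap (fun i => wl ι S T (w i))).toAddMonoidHom ((n : MonoidAlgebra ℝ G) ^ r)
        (fun m => by
          show detMap (fun i => wl ι S (Finset.cons v T hv) (w i)) (exteriorPower.map r J m) =
            (n : MonoidAlgebra ℝ G) ^ r * detMap (fun i => wl ι S T (w i)) m
          rw [detMap_comp]
          have h3 : (fun i => (wl ι S (Finset.cons v T hv) (w i)).comp J) =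
              fun i => n • wl ι S T (w i) := by
            funext i
            ext1 x
            show wl ι S (Finset.cons v T hv) (w i) (J x) = n • wl ι S T (w i) x
            rw [l3_wl, ← map_zsmul]
            rfl
          rw [h3, detMap_zsmul, zsmul_eq_mul, Int.cast_pow]) u
      rw [h2, ← Int.cast_pow, ← zsmul_eq_mul, ← Int.cast_smul_eq_zsmul ℚ, Int.cast_pow]
    rw [extQ_scl, extQ_smul _ δ (toR G δ), h1, mul_smul_comm, smul_smul, inv_mul_cancel₀ hnQ,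
      one_smul, map_mul, hu.value χ, hδ, evR_toR, map_inv]
    · rfl
    · intro m
      show detMap (fun i => wl ι S (Finset.cons v T hv) (w i)) (δ • m) = toR G δ *
        detMap (fun i => wl ι S (Finset.cons v T hv) (w i)) m
      rw [map_smul, Algebra.smul_def]
      rfl

end

end Pool.Agent.RT
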