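import Pool.Agent.Lib_helper49.RT.NUM
import Pool.Agent.Lib_helper35.RS2.P_D2

/-!
# Amplification in `T`: the primes
-/

namespace Pool.Agent.RT

open Pool.Agent.RSK Pool.Agent.RS2
open NumberField IsDedekindDomain
open Pool.Agent.DS (Qbar GQ Induces)
open Pool.Agent.RS.Main (primeSum DirichletGE)

/-- nonzero integers are units at the primes above large `q` -/
theorem nt_avoid {k : Type} [Field k] [NumberField k] (D : Finset (𝓞 k)) (hD : ∀ d ∈ D, d ≠ 0) :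
    ∃ B : ℕ, ∀ q : ℕ, q.Prime → B < q → ∀ w : HeightOneSpectrum (𝓞 k), (q : 𝓞 k) ∈ w.asIdeal →
      ∀ d ∈ D, d ∉ w.asIdeal := by
  refine ⟨∑ d ∈ D, Ideal.absNorm (Ideal.span {d}), fun q hq hBq w hqw d hd hdw => ?_⟩
  have hpos : 0 < Ideal.absNorm (Ideal.span {d}) := Nat.pos_of_ne_zero (by
    rw [Ne, Ideal.absNorm_eq_zero_iff, Ideal.span_singleton_eq_bot]
    exact hD d hd)
  have hle : Ideal.absNorm (Ideal.span {d}) ≤ ∑ d ∈ D, Ideal.absNorm (Ideal.span {d}) :=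
    Finset.single_le_sum (f := fun d => Ideal.absNorm (Ideal.span {d}))
      (fun _ _ => Nat.zero_le _) hd
  exact cb_coprime w.isPrime.ne_top hq hqw
    ((Ideal.span_singleton_le_iff_mem _).2 hdw (Ideal.absNorm_mem _)) hpos (by omega)

/-- a set of primes of positive density is large -/
theorem nv_div {S : Set ℕ} {δ : ℝ} (hδ : 0 < δ) (h : DirichletGE S δ) :
    ¬ Summable (fun p : Nat.Primes => S.indicator (fun q : ℕ => (q : ℝ)⁻¹) p) := by
  intro hs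
  obtain ⟨C, hC⟩ := h
  set A : ℝ := ∑' p : Nat.Primes, S.indicator (fun q : ℕ => (q : ℝ)⁻¹) p with hA
  have hle : ∀ s : ℝ, 1 < s → primeSum S s ≤ A := by
    intro s hs1
    refine Summable.tsum_le_tsum (fun p => ?_) (Pool.Agent.RS.summable_ind hs1 S) hs
    refine Set.indicator_le_indicator ?_
    have hp1 : (1 : ℝ) ≤ ((p : ℕ) : ℝ) := by exact_mod_cast p.2.one_lt.le
    calc ((p : ℕ) : ℝ) ^ (-s) ≤ ((p : ℕ) : ℝ) ^ (-1 : ℝ) :=
          Real.rpow_le_rpow_of_exponent_le hp1 (by linarith)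
      _ = ((p : ℕ) : ℝ)⁻¹ := Real.rpow_neg_one _
  set X : ℝ := (A + C + 1) / δ with hX
  have h1 := hC (1 + Real.exp (-X)) (by linarith [Real.exp_pos (-X)])
  have h2 := hle (1 + Real.exp (-X)) (by linarith [Real.exp_pos (-X)])
  have h3 : Real.log (1 / (1 + Real.exp (-X) - 1)) = X := by
    rw [add_sub_cancel_left, one_div, ← Real.exp_neg, neg_neg, Real.log_exp]
  rw [h3] at h1
  have h4 : δ * X = A + C + 1 := by
    rw [hX]
    field_simp
  linarith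

/-- large sets of primes give large sets of places -/
theorem nv_inject {C : Type} (N : C → ℕ) {Q : Set ℕ}
    (hQ : ¬ Summable (fun p : Nat.Primes => Q.indicator (fun q : ℕ => (q : ℝ)⁻¹) p)) (B : ℕ)
    (h : ∀ q ∈ Q, q.Prime → B < q → ∃ c : C, N c = q) :
    ¬ Summable (fun c : C => ((N c : ℕ) : ℝ)⁻¹) := by
  intro hs
  apply hQ
  let Q₁ : Set Nat.Primes := {p | (p : ℕ) ∈ Q ∧ B < p}
  have h1 : ∀ p : Q₁, ∃ c : C, N c = (p : Nat.Primes) := fun p => h _ p.2.1 p.1.2 p.2.2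
  choose f hf using h1
  have hinj : Function.Injective f := by
    intro p p' hpp
    have h2 := (hf p).symm.trans (by rw [hpp, hf p'])
    exact Subtype.ext (Subtype.ext h2)
  have h2 : Summable (fun p : Q₁ => (((p : Nat.Primes) : ℕ) : ℝ)⁻¹) := by
    refine (hs.comp_injective hinj).congr fun p => ?_
    show ((N (f p) : ℕ) : ℝ)⁻¹ = _
    rw [hf]
  have h3 : Summable (Q₁.indicator fun p : Nat.Primes => ((p : ℕ) : ℝ)⁻¹) :=
    summable_subtype_iff_indicator.1 h2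
  have hfin : {p : Nat.Primes | (p : ℕ) ≤ B}.Finite :=
    (Set.finite_Iic B).preimage (fun a _ b _ hab => Subtype.ext hab)
  have h4 : Summable ({p : Nat.Primes | (p : ℕ) ≤ B}.indicator
      fun p : Nat.Primes => Q.indicator (fun q : ℕ => (q : ℝ)⁻¹) p) :=
    summable_of_hasFiniteSupport (hfin.subset (Set.support_indicator_subset))
  refine (h3.add h4).congr fun p => ?_
  by_cases hB : B < (p : ℕ)
  · have h5 : p ∉ {p : Nat.Primes | (p : ℕ) ≤ B} := fun h => by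
      have : (p : ℕ) ≤ B := h
      omega
    rw [Set.indicator_of_notMem h5, add_zero]
    by_cases hp : (p : ℕ) ∈ Q
    · rw [Set.indicator_of_mem (show p ∈ Q₁ from ⟨hp, hB⟩), Set.indicator_of_mem hp]
    · rw [Set.indicator_of_notMem (fun h : p ∈ Q₁ => hp h.1), Set.indicator_of_notMem hp]
  · have h5 : p ∈ {p : Nat.Primes | (p : ℕ) ≤ B} := not_lt.1 hB
    rw [Set.indicator_of_mem h5, Set.indicator_of_notMem (fun h : p ∈ Q₁ => hB h.2), zero_add]

/-- the density theorem for one automorphism -/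
theorem nv_frob {H : Type} [Field H] [NumberField H] (α : H ≃+* H) :
    ∃ Q : Set ℕ, ¬ Summable (fun p : Nat.Primes => Q.indicator (fun q : ℕ => (q : ℝ)⁻¹) p) ∧
      ∀ q ∈ Q, q.Prime → ∃ w : HeightOneSpectrum (𝓞 H), (q : 𝓞 H) ∈ w.asIdeal ∧
        ∀ z u : 𝓞 H, (u : H) = α z → u - z ^ q ∈ w.asIdeal := by
  have hnorm := cb_normal
  let j : H →ₐ[ℚ] Qbar := IsAlgClosed.lift
  obtain ⟨x, hx⟩ := cb_lift α j
  have hinv : ∀ (c : GQ) (y : Qbar), c⁻¹ (c y) = y := fun c y => by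
    show (c⁻¹ * c) y = y
    rw [inv_mul_cancel]
    rfl
  have hN1 := cb_nn H
  have hF1 := cb_ff H
  set M1 := IntermediateField.normalClosure ℚ H Qbar with hM1
  set π := AlgEquiv.restrictNormalHom (F := ℚ) (K₁ := Qbar) M1 with hπdef
  have hπ : IsOpen (π.ker : Set GQ) := cb_open M1
  have hfin : Finite (M1 ≃ₐ[ℚ] M1) := inferInstance
  have hker : π.rangeRestrict.ker = π.ker := MonoidHom.ker_rangeRestrict π
  let C : Set π.range := {g | ∃ y : GQ, g = π.rangeRestrict (y * x * y⁻¹)}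
  have hCne : Nonempty C := ⟨⟨π.rangeRestrict (1 * x * 1⁻¹), ⟨1, rfl⟩⟩⟩
  have hCpos : 0 < Nat.card C := Nat.card_pos
  have hGpos : 0 < Nat.card π.range := Nat.card_pos
  have hpos : 0 < (Nat.card C : ℝ) / Nat.card π.range := by positivity
  have hcheb := Pool.Agent.DS.cha π.rangeRestrict (by rw [hker]; exact hπ)
    π.rangeRestrict_surjective C
    (by
      rintro g ⟨y, rfl⟩ z
      obtain ⟨w, rfl⟩ := π.rangeRestrict_surjective z
      refine ⟨w * y, ?_⟩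
      rw [← map_mul, ← map_inv, ← map_mul]
      exact congrArg _ (by group))
    (δ := (Nat.card C : ℝ) / Nat.card π.range / 2) (by positivity) (by linarith)
  refine ⟨_, nv_div (by positivity) hcheb, fun q hqS hq => ?_⟩
  obtain ⟨𝔓, hP, hqP', σ, hσ⟩ := Pool.Agent.DS.frx hq
  obtain ⟨y, hy0⟩ := hqS 𝔓 hP hqP' σ hσ
  have hy : π σ = π (y * x * y⁻¹) := by
    have := congrArg Subtype.val hy0
    simpa using this
  have hσj : ∀ z : H, σ (y (j z)) = y (j (α z)) := fun z => by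
    have hm : y (j z) ∈ M1 :=
      AlgHom.fieldRange_le_normalClosure ((y : Qbar →ₐ[ℚ] Qbar).comp j) ⟨z, rfl⟩
    rw [cb_agree M1 hy hm]
    show y (x (y⁻¹ (y (j z)))) = _
    rw [hinv, hx]
  let φ : 𝓞 H →+* 𝓞 Qbar := RingOfIntegers.mapRingHom ((y : Qbar →ₐ[ℚ] Qbar).comp j).toRingHom
  have hφ : ∀ z : 𝓞 H, ((φ z : 𝓞 Qbar) : Qbar) = y (j z) := fun z => rfl
  have hqw : (q : 𝓞 H) ∈ 𝔓.comap φ := by
    rw [Ideal.mem_comap, map_natCast]
    exact hqP'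
  have hprime : (𝔓.comap φ).IsPrime := Ideal.comap_isPrime φ 𝔓
  refine ⟨⟨𝔓.comap φ, hprime, ?_⟩, hqw, ?_⟩
  · intro hbot
    rw [hbot, Ideal.mem_bot] at hqw
    exact hq.ne_zero (by exact_mod_cast hqw)
  · intro z u hu
    show u - z ^ q ∈ 𝔓.comap φ
    rw [Ideal.mem_comap, map_sub, map_pow]
    apply hσ
    rw [hφ, hφ, hσj, hu]

/-- There are many primes `w` of degree one with prescribed `p`-part of `N w - 1`, up to a bounded
factor, for the primes `p ∈ P`, for which given elements are `p ^ M`-th powers modulo `w`. -/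
theorem nv_prime (H : Type) [Field H] [NumberField H] (P : Finset ℕ) (hP : ∀ p ∈ P, p.Prime) :
    ∃ b : ℕ → ℕ, ∀ M₀ : ℕ, ∃ M : ℕ → ℕ, (∀ p ∈ P, M₀ ≤ M p) ∧
      ∀ (A D : Finset (𝓞 H)), (∀ a ∈ A, a ≠ 0) → (∀ d ∈ D, d ≠ 0) →
      ∃ (Q : Set ℕ) (B : ℕ),
        ¬ Summable (fun p : Nat.Primes => Q.indicator (fun q : ℕ => (q : ℝ)⁻¹) p) ∧
        ∀ q ∈ Q, q.Prime → B < q → ∃ w : HeightOneSpectrum (𝓞 H), (q : 𝓞 H) ∈ w.asIdeal ∧
          (∀ z : 𝓞 H, z ^ q - z ∈ w.asIdeal) ∧ (∀ d ∈ D, d ∉ w.asIdeal) ∧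
          (∀ a ∈ A, a ∉ w.asIdeal) ∧
          ∀ p ∈ P, ∃ E : ℕ, q = 1 + p ^ M p * E ∧ ¬ p ^ (b p + 1) ∣ E ∧
            ∀ a ∈ A, a ^ E - 1 ∈ w.asIdeal := by
  classical
  obtain ⟨b, hb⟩ := nu_alpha H P hP
  refine ⟨b, fun M₀ => ?_⟩
  obtain ⟨M, hM, h⟩ := hb M₀
  refine ⟨M, hM, fun A D hA hD => ?_⟩
  obtain ⟨L, _, _, _, α, hξ0, ht⟩ := h (A.image (fun a : 𝓞 H => (a : H)))
  have hξ1 : ∀ p : ℕ, ∃ X Y : 𝓞 L, p ∈ P → IsPrimitiveRoot X (p ^ (M p + b p + 1)) ∧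
      (Y : L) = α (X : L) ∧ Y ≠ X ∧
      ((X ^ p ^ (b p + 1) : 𝓞 L) : L) = α ((X ^ p ^ (b p + 1) : 𝓞 L) : L) := by
    intro p
    by_cases hp : p ∈ P
    · obtain ⟨ξ, hξ, hαξ, hαζ⟩ := hξ0 p hp
      obtain ⟨X, hX⟩ : ∃ X : 𝓞 L, (X : L) = ξ :=
        ⟨⟨ξ, hξ.isIntegral (pow_pos (hP p hp).pos _)⟩, rfl⟩
      obtain ⟨Y, hY⟩ : ∃ Y : 𝓞 L, (Y : L) = α ξ :=
        ⟨RingOfIntegers.mapRingEquiv α.toRingEquiv X, by rw [← hX]; rfl⟩
      refine ⟨X, Y, fun _ => ⟨?_, by rw [hY, hX], ?_, ?_⟩⟩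
      · refine IsPrimitiveRoot.of_map_of_injective (f := algebraMap (𝓞 L) L) ?_
          RingOfIntegers.coe_injective
        show IsPrimitiveRoot (X : L) _
        rw [hX]
        exact hξ
      · intro h0
        exact hαξ (by rw [← hY, h0, hX])
      · have h1 : ((X ^ p ^ (b p + 1) : 𝓞 L) : L) = ξ ^ p ^ (b p + 1) := by
          rw [← hX]
          exact map_pow (algebraMap (𝓞 L) L) X _
        rw [h1, hαζ]
    · exact ⟨1, 1, fun h0 => absurd h0 hp⟩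
  choose X Y hXY using hξ1
  let Z : ℕ → 𝓞 L := fun p => X p ^ p ^ (b p + 1)
  have hZprim : ∀ p ∈ P, IsPrimitiveRoot (Z p) (p ^ M p) := fun p hp =>
    (hXY p hp).1.pow (pow_pos (hP p hp).pos _) (by rw [← pow_add]; congr 1; omega)
  have hinj : Function.Injective (algebraMap (𝓞 H) (𝓞 L)) :=
    FaithfulSMul.algebraMap_injective (𝓞 H) (𝓞 L)
  let D' : Finset (𝓞 L) := D.image (algebraMap (𝓞 H) (𝓞 L)) ∪
    (A.image (algebraMap (𝓞 H) (𝓞 L)) ∪ (P.image (fun p => Y p - X p) ∪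
    P.biUnion (fun p => ((Finset.range (p ^ M p)).erase 0).image (fun i => 1 - Z p ^ i))))
  have hD' : ∀ d ∈ D', d ≠ 0 := by
    intro d hd
    rw [Finset.mem_union, Finset.mem_union, Finset.mem_union, Finset.mem_image, Finset.mem_image,
      Finset.mem_image, Finset.mem_biUnion] at hd
    rcases hd with ⟨d', hd', rfl⟩ | ⟨d', hd', rfl⟩ | ⟨p, hp, rfl⟩ | ⟨p, hp, hd⟩
    · exact fun h0 => hD d' hd' (hinj (by rw [map_zero]; exact h0))
    · exact fun h0 => hA d' hd' (hinj (by rw [map_zero]; exact h0))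
    · exact sub_ne_zero.2 (hXY p hp).2.2.1
    · rw [Finset.mem_image] at hd
      obtain ⟨i, hi, rfl⟩ := hd
      intro h0
      rw [Finset.mem_erase, Finset.mem_range] at hi
      have h1 : Z p ^ i = 1 := (sub_eq_zero.1 h0).symm
      rw [(hZprim p hp).pow_eq_one_iff_dvd] at h1
      exact hi.1 (Nat.eq_zero_of_dvd_of_lt h1 hi.2)
  obtain ⟨B, hB⟩ := nt_avoid D' hD'
  obtain ⟨Q, hQ, hQw⟩ := nv_frob α.toRingEquiv
  refine ⟨Q, B, hQ, fun q hqQ hq hBq => ?_⟩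
  obtain ⟨w', hqw', hw'⟩ := hQw q hqQ hq
  have hav := hB q hq hBq w' hqw'
  obtain ⟨q', hq'⟩ : ∃ q', q = q' + 1 := ⟨q - 1, by have := hq.pos; omega⟩
  have hwp := w'.isPrime
  have key : ∀ x : 𝓞 L, (x : L) = α (x : L) → x ∉ w'.asIdeal → 1 - x ^ q' ∈ w'.asIdeal := by
    intro x hx hxw
    have h1 : x - x ^ q ∈ w'.asIdeal := hw' x x hx
    have h2 : x - x ^ q = x * (1 - x ^ q') := by rw [hq']; ring
    rw [h2] at h1
    exact (hwp.mem_or_mem h1).resolve_left hxw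
  have hone : (1 : 𝓞 L) ∉ w'.asIdeal := fun h1 => w'.isPrime.ne_top
    ((Ideal.eq_top_iff_one _).2 h1)
  have hAw : ∀ a ∈ A, algebraMap (𝓞 H) (𝓞 L) a ∉ w'.asIdeal := by
    intro a ha
    refine hav _ ?_
    rw [Finset.mem_union, Finset.mem_union, Finset.mem_image (s := A)]
    exact Or.inr (Or.inl ⟨a, ha, rfl⟩)
  refine ⟨w'.under (𝓞 H), ?_, ?_, ?_, hAw, ?_⟩
  · show algebraMap (𝓞 H) (𝓞 L) (q : 𝓞 H) ∈ w'.asIdeal
    rw [map_natCast]
    exact hqw'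
  · intro z
    show algebraMap (𝓞 H) (𝓞 L) (z ^ q - z) ∈ w'.asIdeal
    rw [map_sub, map_pow, ← neg_sub]
    apply w'.asIdeal.neg_mem
    exact hw' _ _ (α.commutes (z : H)).symm
  · intro d hd
    show ¬ algebraMap (𝓞 H) (𝓞 L) d ∈ w'.asIdeal
    refine hav _ ?_
    rw [Finset.mem_union, Finset.mem_image]
    exact Or.inl ⟨d, hd, rfl⟩
  intro p hp
  have hpM : 0 < p ^ M p := pow_pos (hP p hp).pos _
  -- `p ^ M ∣ q - 1`
  have hZw : Z p ∉ w'.asIdeal := by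
    intro h1
    apply hone
    rw [← (hZprim p hp).pow_eq_one]
    exact w'.asIdeal.pow_mem_of_mem h1 _ hpM
  have hdvd : p ^ M p ∣ q' := by
    have h1 := key (Z p) (hXY p hp).2.2.2 hZw
    by_contra hcon
    have h2 : q' % p ^ M p ≠ 0 := fun h2 => hcon (Nat.dvd_of_mod_eq_zero h2)
    have h3 : Z p ^ q' = Z p ^ (q' % p ^ M p) := by
      conv_lhs => rw [← Nat.div_add_mod q' (p ^ M p), pow_add, pow_mul,
        (hZprim p hp).pow_eq_one, one_pow, one_mul]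
    rw [h3] at h1
    refine hav _ ?_ h1
    rw [Finset.mem_union, Finset.mem_union, Finset.mem_union, Finset.mem_biUnion]
    exact Or.inr (Or.inr (Or.inr ⟨p, hp, Finset.mem_image.2 ⟨q' % p ^ M p,
      Finset.mem_erase.2 ⟨h2, Finset.mem_range.2 (Nat.mod_lt _ hpM)⟩, rfl⟩⟩))
  obtain ⟨E, hE⟩ := hdvd
  refine ⟨E, by rw [hq', hE]; ring, ?_, ?_⟩
  · rintro ⟨E', hE'⟩
    have h1 : X p ^ q = X p := by
      have h2 : q' = p ^ (M p + b p + 1) * E' := by rw [hE, hE']; ring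
      rw [hq', pow_succ, h2, pow_mul, (hXY p hp).1.pow_eq_one, one_pow, one_mul]
    have h3 : Y p - X p ^ q ∈ w'.asIdeal := hw' (X p) (Y p) (hXY p hp).2.1
    rw [h1] at h3
    refine hav _ ?_ h3
    rw [Finset.mem_union, Finset.mem_union, Finset.mem_union, Finset.mem_image (s := P)]
    exact Or.inr (Or.inr (Or.inl ⟨p, hp, rfl⟩))
  · intro a ha
    show algebraMap (𝓞 H) (𝓞 L) (a ^ E - 1) ∈ w'.asIdeal
    obtain ⟨t, ht1, ht2⟩ := ht p hp (a : H) (Finset.mem_image_of_mem _ ha)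
    have htint : IsIntegral ℤ t := by
      refine IsIntegral.of_pow hpM ?_
      rw [ht1]
      exact (algebraMap (𝓞 H) (𝓞 L) a).2
    obtain ⟨T, hT⟩ : ∃ T : 𝓞 L, (T : L) = t := ⟨⟨t, htint⟩, rfl⟩
    have hTa : T ^ p ^ M p = algebraMap (𝓞 H) (𝓞 L) a := by
      apply RingOfIntegers.coe_injective
      rw [map_pow]
      show (T : L) ^ p ^ M p = _
      rw [hT, ht1]
      rfl
    have hTw : T ∉ w'.asIdeal := by
      intro h1
      apply hAw a ha
      rw [← hTa]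
      exact w'.asIdeal.pow_mem_of_mem h1 _ hpM
    have h1 := key T (by rw [hT, ht2]) hTw
    rw [hE, pow_mul, hTa] at h1
    rw [map_sub, map_pow, map_one, ← neg_sub]
    exact w'.asIdeal.neg_mem h1

end Pool.Agent.RT
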