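import Mathlib

/-!
# Amplification in `T`: automorphisms which move roots of unity and fix radicals
-/

namespace Pool.Agent.RT

open IntermediateField

theorem nt_split {p a b x y : ℕ} (hp : p.Prime) (hx : ¬ p ^ (a + 1) ∣ x) (hy : ¬ p ^ (b + 1) ∣ y) :
    ¬ p ^ (a + b + 1) ∣ x * y := by
  have hx0 : x ≠ 0 := fun h => hx (h ▸ dvd_zero _)
  have hy0 : y ≠ 0 := fun h => hy (h ▸ dvd_zero _)
  obtain ⟨i, x', hx', rfl⟩ := Nat.exists_eq_pow_mul_and_not_dvd hx0 p hp.ne_one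
  obtain ⟨j, y', hy', rfl⟩ := Nat.exists_eq_pow_mul_and_not_dvd hy0 p hp.ne_one
  have hi : i ≤ a := by
    by_contra h
    exact hx ((pow_dvd_pow p (by omega)).mul_right x')
  have hj : j ≤ b := by
    by_contra h
    exact hy ((pow_dvd_pow p (by omega)).mul_right y')
  intro h
  have h1 : p ^ (i + j + 1) ∣ p ^ (i + j) * (x' * y') := by
    have e : p ^ i * x' * (p ^ j * y') = p ^ (i + j) * (x' * y') := by ring
    rw [e] at h
    exact (pow_dvd_pow p (by omega : i + j + 1 ≤ a + b + 1)).trans h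
  rw [pow_succ] at h1
  have h2 := Nat.dvd_of_mul_dvd_mul_left (pow_pos hp.pos _) h1
  rcases (hp.dvd_mul).1 h2 with h3 | h3
  · exact hx' h3
  · exact hy' h3

/-- `s ^ (c + 1) ≢ s` -/
theorem nt_arith {p M b s c : ℕ} (hp : p.Prime) (hbM : b < M) (hs : 1 ≤ s)
    (h1 : p ^ M ∣ s - 1) (h2 : ¬ p ^ (M + 1) ∣ s - 1) (h3 : ¬ p ^ (b + 1) ∣ c) :
    ¬ ((p ^ (M + b + 1) : ℕ) : ℤ) ∣ (s : ℤ) ^ (c + 1) - s := by
  intro h
  have hgeom : (s : ℤ) ^ (c + 1) - s =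
      (s : ℤ) * (((s - 1) * ∑ i ∈ Finset.range c, s ^ i : ℕ) : ℤ) := by
    have h4 := mul_geom_sum (s : ℤ) c
    push_cast [Nat.cast_sub hs]
    rw [h4]
    ring
  rw [hgeom] at h
  have h5 : p ^ (M + b + 1) ∣ s * ((s - 1) * ∑ i ∈ Finset.range c, s ^ i) := by
    exact_mod_cast h
  have hps : ¬ p ∣ s := by
    intro hd
    have h6 : p ∣ s - 1 := (dvd_pow_self p (by omega)).trans h1
    have h7 : p ∣ s - (s - 1) := Nat.dvd_sub hd h6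
    have h8 : s - (s - 1) = 1 := by omega
    rw [h8] at h7
    exact hp.one_lt.ne' (Nat.dvd_one.1 h7)
  have h6 : Nat.Coprime (p ^ (M + b + 1)) s := ((Nat.Prime.coprime_iff_not_dvd hp).2 hps).pow_left _
  have h7 := h6.dvd_of_dvd_mul_left h5
  refine nt_split hp h2 (fun h8 => h3 ?_) h7
  have h9 : ∑ i ∈ Finset.range c, s ^ i ≡ c [MOD p ^ (b + 1)] := by
    have hs1 : s ≡ 1 [MOD p ^ (b + 1)] := by
      rw [Nat.ModEq.comm]
      exact (Nat.modEq_iff_dvd' hs).2 ((pow_dvd_pow p (by omega)).trans h1)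
    clear h8 h7 h5 hgeom h h3
    induction c with
    | zero => exact Nat.ModEq.refl _
    | succ c ih =>
      rw [Finset.sum_range_succ]
      refine Nat.ModEq.add ih ?_
      have := hs1.pow c
      rwa [one_pow] at this
  exact (Nat.modEq_zero_iff_dvd).1 (h9.symm.trans ((Nat.modEq_zero_iff_dvd).2 h8))

section

variable {H L : Type} [Field H] [Field L] [Algebra H L]

/-- `τ σ τ⁻¹` and `σ ^ c` agree on radicals. -/
theorem nt_agree {n : ℕ} [NeZero n] {ζ : L} (hζ : IsPrimitiveRoot ζ n) (σ τ : L ≃ₐ[H] L) {c : ℕ}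
    (hσ : σ ζ = ζ) (hτ : τ ζ = ζ ^ c) {x : L} {a : H} (hx : x ^ n = algebraMap H L a) :
    τ (σ (τ⁻¹ x)) = (σ ^ c) x := by
  by_cases hx0 : x = 0
  · subst hx0
    simp
  have hn : n ≠ 0 := NeZero.ne n
  have hroot : ∀ ω : L, ω ^ n = 1 → σ ω = ω ∧ τ ω = ω ^ c := by
    intro ω hω
    obtain ⟨i, -, rfl⟩ := hζ.eq_pow_of_pow_eq_one hω
    refine ⟨by rw [map_pow, hσ], by rw [map_pow, hτ, ← pow_mul, ← pow_mul, mul_comm]⟩
  have hxn : x ^ n ≠ 0 := pow_ne_zero _ hx0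
  obtain ⟨η, hη⟩ : ∃ η : L, σ x = η * x := ⟨σ x / x, by rw [div_mul_cancel₀ _ hx0]⟩
  obtain ⟨θ, hθ⟩ : ∃ θ : L, τ⁻¹ x = θ * x := ⟨τ⁻¹ x / x, by rw [div_mul_cancel₀ _ hx0]⟩
  have hη1 : η ^ n = 1 := by
    have h1 : (σ x) ^ n = x ^ n := by rw [← map_pow, hx, AlgEquiv.commutes]
    rw [hη, mul_pow] at h1
    exact mul_right_cancel₀ hxn (by rw [h1, one_mul])
  have hθ1 : θ ^ n = 1 := by
    have h1 : (τ⁻¹ x) ^ n = x ^ n := by rw [← map_pow, hx, AlgEquiv.commutes]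
    rw [hθ, mul_pow] at h1
    exact mul_right_cancel₀ hxn (by rw [h1, one_mul])
  have hpow : ∀ k : ℕ, (σ ^ k) x = η ^ k * x := by
    intro k
    induction k with
    | zero => simp
    | succ k ih =>
      have h1 : (σ ^ (k + 1)) x = σ ((σ ^ k) x) := by
        rw [pow_succ']
        rfl
      rw [h1, ih, map_mul, map_pow, (hroot η hη1).1, hη, pow_succ]
      ring
  have h2 : x = τ θ * τ x := by
    have h3 : τ (τ⁻¹ x) = x := by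
      show (τ * τ⁻¹) x = x
      rw [mul_inv_cancel]
      rfl
    rw [hθ, map_mul] at h3
    exact h3.symm
  rw [hpow, hθ, map_mul, map_mul, (hroot θ hθ1).1, hη, map_mul, (hroot η hη1).2]
  calc τ θ * (η ^ c * τ x) = η ^ c * (τ θ * τ x) := by ring
    _ = η ^ c * x := by rw [← h2]

/-- The automorphism `τ σ τ⁻¹ σ^{-c}` fixes radicals. -/
theorem nt_fix {n : ℕ} [NeZero n] {ζ : L} (hζ : IsPrimitiveRoot ζ n) (σ τ : L ≃ₐ[H] L) {c : ℕ}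
    (hσ : σ ζ = ζ) (hτ : τ ζ = ζ ^ c) {x : L} {a : H} (hx : x ^ n = algebraMap H L a) :
    (τ * σ * τ⁻¹ * (σ ^ c)⁻¹) x = x := by
  set y := (σ ^ c)⁻¹ x with hy
  have hy1 : y ^ n = algebraMap H L a := by rw [hy, ← map_pow, hx, AlgEquiv.commutes]
  have h1 := nt_agree hζ σ τ hσ hτ hy1
  have h2 : (σ ^ c) y = x := by
    show (σ ^ c * (σ ^ c)⁻¹) x = x
    rw [mul_inv_cancel]
    rfl
  rw [h2] at h1
  exact h1

/-- and moves roots of unity of higher order -/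
theorem nt_move {p M b : ℕ} (hp : p.Prime) (hbM : b < M) {ξ : L}
    (hξ : IsPrimitiveRoot ξ (p ^ (M + b + 1))) (σ τ : L ≃ₐ[H] L) {c : ℕ}
    (hσ : σ (ξ ^ p ^ (b + 1)) = ξ ^ p ^ (b + 1)) (hσ' : σ (ξ ^ p ^ b) ≠ ξ ^ p ^ b)
    (hτ : τ ξ = ξ ^ (c + 1)) (hτ' : τ (ξ ^ p ^ M) ≠ ξ ^ p ^ M) :
    (τ * σ * τ⁻¹ * (σ ^ (c + 1))⁻¹) ξ ≠ ξ := by
  have hn : 0 < p ^ (M + b + 1) := pow_pos hp.pos _
  have : NeZero (p ^ (M + b + 1)) := ⟨hn.ne'⟩
  have hroot : ∀ (g : L ≃ₐ[H] L), ∃ s : ℕ, 1 ≤ s ∧ g ξ = ξ ^ s := by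
    intro g
    have h1 : (g ξ) ^ (p ^ (M + b + 1)) = 1 := by rw [← map_pow, hξ.pow_eq_one, map_one]
    obtain ⟨s, -, hs⟩ := hξ.eq_pow_of_pow_eq_one h1
    refine ⟨s + p ^ (M + b + 1), by omega, ?_⟩
    rw [pow_add, hξ.pow_eq_one, mul_one, hs]
  obtain ⟨s, hs, hσs⟩ := hroot σ
  have hsub : ∀ (t : ℕ) (k m : ℕ), 1 ≤ t → k + m = M + b + 1 → ((ξ ^ t) ^ p ^ k = ξ ^ p ^ k ↔
      p ^ m ∣ t - 1) := by
    intro t k m ht hkm
    have h1 : (ξ ^ t) ^ p ^ k = ξ ^ p ^ k * ξ ^ (p ^ k * (t - 1)) := by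
      rw [← pow_mul, ← pow_add]
      congr 1
      obtain ⟨t', rfl⟩ : ∃ t', t = t' + 1 := ⟨t - 1, by omega⟩
      simp only [Nat.add_sub_cancel]
      ring
    have h2 : ξ ^ p ^ k ≠ 0 := pow_ne_zero _ (hξ.ne_zero hn.ne')
    rw [h1]
    constructor
    · intro h
      have h3 : ξ ^ (p ^ k * (t - 1)) = 1 := mul_left_cancel₀ h2 (by rw [h, mul_one])
      rw [hξ.pow_eq_one_iff_dvd, ← hkm, pow_add] at h3
      exact Nat.dvd_of_mul_dvd_mul_left (pow_pos hp.pos _) h3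
    · intro h
      have h3 : ξ ^ (p ^ k * (t - 1)) = 1 := by
        rw [hξ.pow_eq_one_iff_dvd, ← hkm, pow_add]
        exact Nat.mul_dvd_mul_left _ h
      rw [h3, mul_one]
  have a1 : p ^ M ∣ s - 1 := by
    rw [map_pow, hσs] at hσ
    exact (hsub s (b + 1) M hs (by omega)).1 hσ
  have a2 : ¬ p ^ (M + 1) ∣ s - 1 := by
    rw [map_pow, hσs] at hσ'
    exact fun h => hσ' ((hsub s b (M + 1) hs (by omega)).2 h)
  have a3 : ¬ p ^ (b + 1) ∣ c := by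
    rw [map_pow, hτ] at hτ'
    intro h
    exact hτ' ((hsub (c + 1) M (b + 1) (by omega) (by omega)).2 h)
  intro hcon
  apply nt_arith hp hbM hs a1 a2 a3
  -- `τ σ τ⁻¹ ξ = σ^{c+1} ξ`
  obtain ⟨t, -, ht⟩ := hroot τ⁻¹
  have hσk : ∀ k : ℕ, (σ ^ k) ξ = ξ ^ s ^ k := by
    intro k
    induction k with
    | zero => simp
    | succ k ih =>
      have h1 : (σ ^ (k + 1)) ξ = σ ((σ ^ k) ξ) := by
        rw [pow_succ']
        rfl
      rw [h1, ih, map_pow, hσs, ← pow_mul, pow_succ, mul_comm]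
  have h1 : τ (σ (τ⁻¹ ξ)) = ξ ^ s := by
    have h3 : τ (τ⁻¹ ξ) = ξ := by
      show (τ * τ⁻¹) ξ = ξ
      rw [mul_inv_cancel]
      rfl
    rw [ht, map_pow] at h3
    rw [ht, map_pow, hσs, ← pow_mul, mul_comm, pow_mul, map_pow, map_pow, h3]
  have h2 : (τ * σ * τ⁻¹ * (σ ^ (c + 1))⁻¹) ((σ ^ (c + 1)) ξ) = τ (σ (τ⁻¹ ξ)) := by
    show (τ * σ * τ⁻¹) (((σ ^ (c + 1))⁻¹ * (σ ^ (c + 1))) ξ) = _
    rw [inv_mul_cancel]
    rfl
  rw [hσk, map_pow, hcon, h1] at h2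
  -- `ξ ^ s ^ (c + 1) = ξ ^ s`
  have hz : ξ ^ ((s : ℤ) ^ (c + 1) - s) = 1 := by
    rw [zpow_sub₀ (hξ.ne_zero hn.ne'), zpow_natCast, ← Nat.cast_pow, zpow_natCast, h2,
      div_self (pow_ne_zero _ (hξ.ne_zero hn.ne'))]
  exact (hξ.zpow_eq_one_iff_dvd _).1 hz

end

end Pool.Agent.RT
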