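import Pool.Agent.Lib_helper49.RT.NT1

/-!
# Amplification in `T`: automorphisms for several primes
-/

namespace Pool.Agent.RT

open IntermediateField Polynomial

/-- the orders of the roots of unity of `p`-power order of a number field are bounded -/
theorem nu_bdd (K : Type) [Field K] [NumberField K] {p : ℕ} (hp : p.Prime) :
    ∃ B : ℕ, ∀ (n : ℕ) (z : K), IsPrimitiveRoot z (p ^ n) → n < B := by
  refine ⟨Module.finrank ℚ K + 1, fun n z hz => ?_⟩
  rcases n with _ | n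
  · exact Nat.succ_pos _
  have h1 := IsPrimitiveRoot.lcm_totient_le_finrank (K := ℚ) hz hz
    (by rw [Nat.lcm_self]; exact cyclotomic.irreducible_rat (pow_pos hp.pos _))
  rw [Nat.lcm_self, Nat.totient_prime_pow_succ hp] at h1
  have h2 : n < p ^ n := Nat.lt_pow_self hp.one_lt
  have h3 : 1 ≤ p - 1 := by
    have := hp.two_le
    omega
  have h4 : p ^ n * 1 ≤ p ^ n * (p - 1) := Nat.mul_le_mul_left _ h3
  omega

theorem nu_prim (H : Type) [Field H] [NumberField H] {n : ℕ} (hn : 0 < n) :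
    ∃ z : AlgebraicClosure H, IsPrimitiveRoot z n := by
  have hcz : CharZero (AlgebraicClosure H) :=
    charZero_of_injective_algebraMap (algebraMap H (AlgebraicClosure H)).injective
  have : NeZero ((n : ℕ) : AlgebraicClosure H) := ⟨by exact_mod_cast hn.ne'⟩
  obtain ⟨z, hz⟩ := IsAlgClosed.exists_root (cyclotomic n (AlgebraicClosure H)) (by
    rw [Polynomial.degree_cyclotomic]
    exact_mod_cast (Nat.totient_pos.2 hn).ne')
  exact ⟨z, isRoot_cyclotomic_iff.1 hz⟩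

/-- one prime -/
theorem nu_one (H : Type) [Field H] [NumberField H] {p : ℕ} (hp : p.Prime) :
    ∃ b : ℕ, ∀ M₀ : ℕ, ∃ M : ℕ, M₀ ≤ M ∧ ∃ α : AlgebraicClosure H ≃ₐ[H] AlgebraicClosure H,
      (∀ (x : AlgebraicClosure H) (a : H), x ^ p ^ M = algebraMap H _ a → α x = x) ∧
      ∀ ξ : AlgebraicClosure H, IsPrimitiveRoot ξ (p ^ (M + b + 1)) → α ξ ≠ ξ := by
  classical
  obtain ⟨B, hB⟩ := nu_bdd H hp
  refine ⟨B, fun M₀ => ?_⟩
  let Ω := AlgebraicClosure H
  have hprim : ∀ n : ℕ, ∃ z : Ω, IsPrimitiveRoot z (p ^ n) := fun n => nu_prim H (pow_pos hp.pos n)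
  set M₁ := max M₀ (B + 1) with hM₁
  obtain ⟨z₁, hz₁⟩ := hprim M₁
  let K : IntermediateField H Ω := H⟮z₁⟯
  have hfdK : FiniteDimensional H K :=
    IntermediateField.adjoin.finiteDimensional (Algebra.IsIntegral.isIntegral z₁)
  have hNK : NumberField K := NumberField.of_module_finite H K
  obtain ⟨B', hB'⟩ := nu_bdd K hp
  -- the maximal `M`
  let P : ℕ → Prop := fun n => ∃ z : K, IsPrimitiveRoot z (p ^ n)
  have hPM₁ : P M₁ := by
    refine ⟨⟨z₁, IntermediateField.mem_adjoin_simple_self H z₁⟩, ?_⟩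
    exact IsPrimitiveRoot.of_map_of_injective (f := K.val) hz₁ K.val.injective
  have hPB : ∀ n, P n → n ≤ B' := fun n ⟨z, hz⟩ => (hB' n z hz).le
  set M := Nat.findGreatest P B' with hM
  have hPM : P M := Nat.findGreatest_spec (hPB M₁ hPM₁) hPM₁
  have hM₁M : M₁ ≤ M := Nat.le_findGreatest (hPB M₁ hPM₁) hPM₁
  have hPM' : ¬ P (M + 1) := fun h => by
    have := Nat.le_findGreatest (hPB _ h) h
    omega
  have hBM : B < M := by
    have : B + 1 ≤ M₁ := le_max_right _ _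
    omega
  refine ⟨M, (le_max_left _ _).trans hM₁M, ?_⟩
  obtain ⟨ξ, hξ⟩ := hprim (M + B + 1)
  have hne : NeZero (p ^ (M + B + 1)) := ⟨(pow_pos hp.pos _).ne'⟩
  have hneM : NeZero (p ^ M) := ⟨(pow_pos hp.pos _).ne'⟩
  have hζ : IsPrimitiveRoot (ξ ^ p ^ (B + 1)) (p ^ M) :=
    hξ.pow (pow_pos hp.pos _) (by rw [← pow_add]; congr 1; omega)
  have hζK : ξ ^ p ^ (B + 1) ∈ K := by
    obtain ⟨z, hz⟩ := hPM
    have hz' : IsPrimitiveRoot (z : Ω) (p ^ M) :=
      hz.map_of_injective (f := K.val) K.val.injective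
    obtain ⟨i, -, hi⟩ := hz'.eq_pow_of_pow_eq_one hζ.pow_eq_one
    rw [← hi]
    exact pow_mem z.2 i
  have hζ' : IsPrimitiveRoot (ξ ^ p ^ B) (p ^ (M + 1)) :=
    hξ.pow (pow_pos hp.pos _) (by rw [← pow_add]; congr 1; omega)
  have hζK' : ξ ^ p ^ B ∉ K := by
    intro h
    apply hPM'
    exact ⟨⟨ξ ^ p ^ B, h⟩, IsPrimitiveRoot.of_map_of_injective (f := K.val) hζ' K.val.injective⟩
  have hζ'' : IsPrimitiveRoot (ξ ^ p ^ M) (p ^ (B + 1)) :=
    hξ.pow (pow_pos hp.pos _) (by rw [← pow_add]; congr 1)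
  have hgal : IsGalois H Ω := IsAlgClosure.isGalois H Ω
  have hgalK : IsGalois K Ω := IsGalois.tower_top_of_isGalois H K Ω
  obtain ⟨σ₀, hσ₀⟩ : ∃ σ : Ω ≃ₐ[K] Ω, σ (ξ ^ p ^ B) ≠ ξ ^ p ^ B := by
    by_contra hcon
    push Not at hcon
    obtain ⟨y, hy⟩ := (InfiniteGalois.mem_range_algebraMap_iff_fixed (k := K) (ξ ^ p ^ B)).2 hcon
    exact hζK' (hy ▸ y.2)
  obtain ⟨τ, hτ⟩ : ∃ τ : Ω ≃ₐ[H] Ω, τ (ξ ^ p ^ M) ≠ ξ ^ p ^ M := by
    by_contra hcon
    push Not at hcon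
    obtain ⟨y, hy⟩ := (InfiniteGalois.mem_range_algebraMap_iff_fixed (k := H) (ξ ^ p ^ M)).2 hcon
    rw [← hy] at hζ''
    have h1 := IsPrimitiveRoot.of_map_of_injective (f := algebraMap H Ω) hζ''
      (algebraMap H Ω).injective
    have := hB _ _ h1
    omega
  let σ : Ω ≃ₐ[H] Ω := σ₀.restrictScalars H
  have hσ : σ (ξ ^ p ^ (B + 1)) = ξ ^ p ^ (B + 1) := σ₀.commutes ⟨_, hζK⟩
  have hσ' : σ (ξ ^ p ^ B) ≠ ξ ^ p ^ B := hσ₀
  obtain ⟨c, hc⟩ : ∃ c : ℕ, τ ξ = ξ ^ (c + 1) := by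
    have h1 : (τ ξ) ^ (p ^ (M + B + 1)) = 1 := by rw [← map_pow, hξ.pow_eq_one, map_one]
    obtain ⟨s, -, hs⟩ := hξ.eq_pow_of_pow_eq_one h1
    refine ⟨s + p ^ (M + B + 1) - 1, ?_⟩
    have h2 : 0 < p ^ (M + B + 1) := pow_pos hp.pos _
    rw [Nat.sub_add_cancel (by omega), pow_add, hξ.pow_eq_one, mul_one, hs]
  have hτζ : τ (ξ ^ p ^ (B + 1)) = (ξ ^ p ^ (B + 1)) ^ (c + 1) := by
    rw [map_pow, hc, ← pow_mul, ← pow_mul, mul_comm]
  refine ⟨τ * σ * τ⁻¹ * (σ ^ (c + 1))⁻¹, fun x a hx => nt_fix hζ σ τ hσ hτζ hx, fun ξ' hξ' h => ?_⟩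
  apply nt_move hp hBM hξ σ τ hσ hσ' hc hτ
  obtain ⟨i, -, hi⟩ := hξ'.eq_pow_of_pow_eq_one hξ.pow_eq_one
  rw [← hi, map_pow, h]

/-- `σ ^ (n φ(n))` fixes the radicals of exponent `n` -/
theorem nu_kill {H : Type} [Field H] [NumberField H]
    (σ : AlgebraicClosure H ≃ₐ[H] AlgebraicClosure H) {n : ℕ} (hn : 0 < n)
    {x : AlgebraicClosure H} {a : H} (hx : x ^ n = algebraMap H _ a) {D : ℕ}
    (hD : n * n.totient ∣ D) : (σ ^ D) x = x := by
  by_cases hx0 : x = 0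
  · subst hx0
    exact map_zero _
  obtain ⟨z, hz⟩ := nu_prim H hn
  have hne : NeZero n := ⟨hn.ne'⟩
  -- powers of `σ` on `z`
  have hσz : IsPrimitiveRoot (σ z) n := hz.map_of_injective (f := σ) σ.injective
  obtain ⟨c, -, hc⟩ := hz.eq_pow_of_pow_eq_one hσz.pow_eq_one
  have hcop : c.Coprime n := by
    rw [← hc] at hσz
    exact (hz.pow_iff_coprime hn c).1 hσz
  have hpow : ∀ (τ : AlgebraicClosure H ≃ₐ[H] AlgebraicClosure H) (e : ℕ)
      (y : AlgebraicClosure H), τ y = y ^ e → ∀ k : ℕ, (τ ^ k) y = y ^ e ^ k := by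
    intro τ e y hy k
    induction k with
    | zero => simp
    | succ k ih =>
      have h1 : (τ ^ (k + 1)) y = τ ((τ ^ k) y) := by
        rw [pow_succ']
        rfl
      rw [h1, ih, map_pow, hy, ← pow_mul, pow_succ, mul_comm]
  set ρ := σ ^ n.totient with hρ
  have hρz : ρ z = z := by
    rw [hρ, hpow σ c z hc.symm]
    have h1 : c ^ n.totient ≡ 1 [MOD n] := Nat.ModEq.pow_totient hcop
    obtain ⟨k, hk⟩ : ∃ k, c ^ n.totient = k := ⟨_, rfl⟩
    rw [hk] at h1 ⊢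
    rw [← Nat.mod_add_div k n, pow_add, pow_mul, hz.pow_eq_one, one_pow, mul_one, h1]
    rw [← pow_one z, ← pow_mul]
    rcases Nat.lt_or_ge 1 n with h2 | h2
    · rw [Nat.mod_eq_of_lt h2]
    · have h3 : n = 1 := by omega
      subst h3
      have h4 : z = 1 := by
        have := hz.pow_eq_one
        rwa [pow_one] at this
      rw [h4, one_pow, one_pow]
  obtain ⟨η, hη⟩ : ∃ η, ρ x = η * x := ⟨ρ x / x, by rw [div_mul_cancel₀ _ hx0]⟩
  have hη1 : η ^ n = 1 := by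
    have h1 : (ρ x) ^ n = x ^ n := by rw [← map_pow, hx, AlgEquiv.commutes]
    rw [hη, mul_pow] at h1
    exact mul_right_cancel₀ (pow_ne_zero n hx0) (by rw [h1, one_mul])
  have hρη : ρ η = η := by
    obtain ⟨i, -, rfl⟩ := hz.eq_pow_of_pow_eq_one hη1
    rw [map_pow, hρz]
  have hρk : ∀ k : ℕ, (ρ ^ k) x = η ^ k * x := by
    intro k
    induction k with
    | zero => simp
    | succ k ih =>
      have h1 : (ρ ^ (k + 1)) x = ρ ((ρ ^ k) x) := by
        rw [pow_succ']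
        rfl
      rw [h1, ih, map_mul, map_pow, hρη, hη, pow_succ]
      ring
  obtain ⟨m, rfl⟩ := hD
  have h5 : σ ^ (n * n.totient * m) = ρ ^ (n * m) := by
    rw [hρ, ← pow_mul]
    congr 1
    ring
  rw [h5, hρk, pow_mul, hη1, one_pow, one_mul]

/-- elements avoiding several subgroups -/
theorem grp_avoid {Γ J : Type} [Group Γ] [DecidableEq J] (N : Subgroup Γ) (P : Finset J)
    (K : J → Subgroup Γ) (β : J → Γ) (h1 : ∀ p ∈ P, β p ∈ N) (h2 : ∀ p ∈ P, β p ∉ K p)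
    (h3 : ∀ p ∈ P, ∀ q ∈ P, p ≠ q → β p ∈ K q) : ∃ α ∈ N, ∀ p ∈ P, α ∉ K p := by
  induction P using Finset.induction_on with
  | empty => exact ⟨1, N.one_mem, fun p hp => absurd hp (Finset.notMem_empty p)⟩
  | insert q P hq ih =>
    obtain ⟨α, hα, hαP⟩ := ih (fun p hp => h1 p (Finset.mem_insert_of_mem hp))
      (fun p hp => h2 p (Finset.mem_insert_of_mem hp))
      (fun p hp q' hq' => h3 p (Finset.mem_insert_of_mem hp) q' (Finset.mem_insert_of_mem hq'))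
    by_cases hαq : α ∈ K q
    · refine ⟨α * β q, N.mul_mem hα (h1 q (Finset.mem_insert_self q P)), fun p hp => ?_⟩
      rcases Finset.mem_insert.1 hp with rfl | hp
      · exact fun h => h2 _ (Finset.mem_insert_self _ P) (((K _).mul_mem_cancel_left hαq).1 h)
      · have hqp : q ≠ p := fun h => hq (h ▸ hp)
        have h4 := h3 q (Finset.mem_insert_self q P) p (Finset.mem_insert_of_mem hp) hqp
        exact fun h => hαP p hp (((K p).mul_mem_cancel_right h4).1 h)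
    · refine ⟨α, hα, fun p hp => ?_⟩
      rcases Finset.mem_insert.1 hp with rfl | hp
      · exact hαq
      · exact hαP p hp

/-- the powers of an automorphism which moves roots of unity -/
theorem nu_power {H : Type} [Field H] [NumberField H]
    (σ : AlgebraicClosure H ≃ₐ[H] AlgebraicClosure H) {p M b d D : ℕ} (hp : p.Prime) (hd : d < M)
    (hfix : ∀ (x : AlgebraicClosure H) (a : H), x ^ p ^ M = algebraMap H _ a → σ x = x)
    (hmov : ∀ ξ : AlgebraicClosure H, IsPrimitiveRoot ξ (p ^ (M + b + 1)) → σ ξ ≠ ξ)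
    (hD : ¬ p ^ (d + 1) ∣ D) {ξ : AlgebraicClosure H}
    (hξ : IsPrimitiveRoot ξ (p ^ (M + (b + d) + 1))) : (σ ^ D) ξ ≠ ξ := by
  have hn : 0 < p ^ (M + (b + d) + 1) := pow_pos hp.pos _
  have hne : NeZero (p ^ (M + (b + d) + 1)) := ⟨hn.ne'⟩
  obtain ⟨t, ht, hσt⟩ : ∃ t : ℕ, 1 ≤ t ∧ σ ξ = ξ ^ t := by
    have h1 : (σ ξ) ^ (p ^ (M + (b + d) + 1)) = 1 := by rw [← map_pow, hξ.pow_eq_one, map_one]
    obtain ⟨s, -, hs⟩ := hξ.eq_pow_of_pow_eq_one h1
    refine ⟨s + p ^ (M + (b + d) + 1), by omega, ?_⟩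
    rw [pow_add, hξ.pow_eq_one, mul_one, hs]
  have hξ0 : ξ ≠ 0 := hξ.ne_zero hn.ne'
  have hsub : ∀ (t k m : ℕ), 1 ≤ t → k + m = M + (b + d) + 1 → ((ξ ^ t) ^ p ^ k = ξ ^ p ^ k ↔
      p ^ m ∣ t - 1) := by
    intro t k m ht hkm
    have h1 : (ξ ^ t) ^ p ^ k = ξ ^ p ^ k * ξ ^ (p ^ k * (t - 1)) := by
      rw [← pow_mul, ← pow_add]
      congr 1
      obtain ⟨t', rfl⟩ : ∃ t', t = t' + 1 := ⟨t - 1, by omega⟩
      simp only [Nat.add_sub_cancel]
      ring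
    have h2 : ξ ^ p ^ k ≠ 0 := pow_ne_zero _ hξ0
    rw [h1]
    constructor
    · intro h
      have h3 : ξ ^ (p ^ k * (t - 1)) = 1 := mul_left_cancel₀ h2 (by rw [h, mul_one])
      rw [hξ.pow_eq_one_iff_dvd, ← hkm, pow_add] at h3
      exact Nat.dvd_of_mul_dvd_mul_left (pow_pos hp.pos _) h3
    · intro h
      have h3 : ξ ^ (p ^ k * (t - 1)) = 1 := by
        rw [hξ.pow_eq_one_iff_dvd, ← hkm, pow_add]
        exact Nat.mul_dvd_mul_left _ h
      rw [h3, mul_one]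
  have a1 : p ^ M ∣ t - 1 := by
    have h1 : σ (ξ ^ p ^ (b + d + 1)) = ξ ^ p ^ (b + d + 1) := hfix _ 1 (by
      rw [← pow_mul, ← pow_add, map_one, hξ.pow_eq_one_iff_dvd]
      exact pow_dvd_pow p (by omega))
    rw [map_pow, hσt] at h1
    exact (hsub t (b + d + 1) M ht (by omega)).1 h1
  have a2 : ¬ p ^ (M + b + 1) ∣ t - 1 := by
    intro h
    refine hmov (ξ ^ p ^ d) (hξ.pow hn (by rw [← pow_add]; congr 1; omega)) ?_
    rw [map_pow, hσt]
    exact (hsub t d (M + b + 1) ht (by omega)).2 h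
  have hσk : ∀ k : ℕ, (σ ^ k) ξ = ξ ^ t ^ k := by
    intro k
    induction k with
    | zero => simp
    | succ k ih =>
      have h1 : (σ ^ (k + 1)) ξ = σ ((σ ^ k) ξ) := by
        rw [pow_succ']
        rfl
      rw [h1, ih, map_pow, hσt, ← pow_mul, pow_succ, mul_comm]
  intro hcon
  rw [hσk] at hcon
  have htD : 1 ≤ t ^ D := Nat.one_le_pow _ _ ht
  have h3 : p ^ (M + (b + d) + 1) ∣ t ^ D - 1 := by
    have h4 := (hsub (t ^ D) 0 (M + (b + d) + 1) htD (by omega)).1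
    rw [pow_zero, pow_one, pow_one] at h4
    exact h4 hcon
  have hgeom : t ^ D - 1 = (t - 1) * ∑ i ∈ Finset.range D, t ^ i := by
    have h4 := mul_geom_sum (t : ℤ) D
    have h5 : ((t ^ D - 1 : ℕ) : ℤ) = (((t - 1) * ∑ i ∈ Finset.range D, t ^ i : ℕ) : ℤ) := by
      push_cast [Nat.cast_sub ht, Nat.cast_sub htD]
      exact h4.symm
    exact_mod_cast h5
  rw [hgeom] at h3
  have h6 : ¬ p ^ (d + 1) ∣ ∑ i ∈ Finset.range D, t ^ i := by
    intro h8
    apply hD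
    have h9 : ∑ i ∈ Finset.range D, t ^ i ≡ D [MOD p ^ (d + 1)] := by
      have hs1 : t ≡ 1 [MOD p ^ (d + 1)] := by
        rw [Nat.ModEq.comm]
        exact (Nat.modEq_iff_dvd' ht).2 ((pow_dvd_pow p (by omega)).trans a1)
      clear h8 h3 hgeom hcon htD hD
      induction D with
      | zero => exact Nat.ModEq.refl _
      | succ c ih =>
        rw [Finset.sum_range_succ]
        refine Nat.ModEq.add ih ?_
        have := hs1.pow c
        rwa [one_pow] at this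
    exact (Nat.modEq_zero_iff_dvd).1 (h9.symm.trans ((Nat.modEq_zero_iff_dvd).2 h8))
  refine nt_split hp (a := M + b) (b := d) a2 h6 ?_
  rwa [add_assoc M b d]

end Pool.Agent.RT
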