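import Pool.Agent.Lib_helper49.RT.NU

/-!
# Amplification in `T`: automorphisms for several primes (end)
-/

namespace Pool.Agent.RT

open IntermediateField Polynomial

theorem nu_dvd {p : ℕ} (hp : p.Prime) (P : Finset ℕ) (hP : ∀ q ∈ P, q.Prime ∧ q ≠ p)
    (m : ℕ → ℕ) :
    ¬ p ^ (padicValNat p (∏ q ∈ P, (q - 1)) + 1) ∣ ∏ q ∈ P, (q ^ (m q + 1) * (q ^ (m q + 1)).totient) := by
  have hfact : Fact p.Prime := ⟨hp⟩
  have h0 : ∏ q ∈ P, (q - 1) ≠ 0 := by
    rw [Finset.prod_ne_zero_iff]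
    intro q hq
    have := (hP q hq).1.two_le
    omega
  have h1 : ∏ q ∈ P, (q ^ (m q + 1) * (q ^ (m q + 1)).totient) =
      (∏ q ∈ P, q ^ (m q + 1 + m q)) * ∏ q ∈ P, (q - 1) := by
    rw [← Finset.prod_mul_distrib]
    refine Finset.prod_congr rfl fun q hq => ?_
    rw [Nat.totient_prime_pow_succ (hP q hq).1, pow_add q (m q + 1) (m q)]
    ring
  rw [h1]
  intro h
  have h2 : Nat.Coprime (p ^ (padicValNat p (∏ q ∈ P, (q - 1)) + 1))
      (∏ q ∈ P, q ^ (m q + 1 + m q)) := by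
    refine Nat.Coprime.pow_left _ (Nat.Coprime.prod_right fun q hq => Nat.Coprime.pow_right _ ?_)
    exact (Nat.coprime_primes hp (hP q hq).1).2 (hP q hq).2.symm
  have h3 := h2.dvd_of_dvd_mul_left h
  have h4 := (padicValNat_dvd_iff_le h0).1 h3
  omega

/-- several primes -/
theorem nu_multi (H : Type) [Field H] [NumberField H] (P : Finset ℕ) (hP : ∀ p ∈ P, p.Prime) :
    ∃ b : ℕ → ℕ, ∀ M₀ : ℕ, ∃ M : ℕ → ℕ, (∀ p ∈ P, M₀ ≤ M p) ∧
      ∃ α : AlgebraicClosure H ≃ₐ[H] AlgebraicClosure H,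
        (∀ p ∈ P, ∀ (x : AlgebraicClosure H) (a : H), x ^ p ^ M p = algebraMap H _ a → α x = x) ∧
        ∀ p ∈ P, ∀ ξ : AlgebraicClosure H, IsPrimitiveRoot ξ (p ^ (M p + b p + 1)) →
          α ξ ≠ ξ := by
  classical
  have hb0 : ∀ p : ℕ, ∃ b : ℕ, p ∈ P → ∀ M₀ : ℕ, ∃ M : ℕ, M₀ ≤ M ∧
      ∃ α : AlgebraicClosure H ≃ₐ[H] AlgebraicClosure H,
      (∀ (x : AlgebraicClosure H) (a : H), x ^ p ^ M = algebraMap H _ a → α x = x) ∧
      ∀ ξ : AlgebraicClosure H, IsPrimitiveRoot ξ (p ^ (M + b + 1)) → α ξ ≠ ξ := by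
    intro p
    by_cases hp : p ∈ P
    · obtain ⟨b, hb⟩ := nu_one H (hP p hp)
      exact ⟨b, fun _ => hb⟩
    · exact ⟨0, fun h => absurd h hp⟩
  choose b₀ hb₀ using hb0
  let d : ℕ → ℕ := fun p => padicValNat p (∏ q ∈ P.erase p, (q - 1))
  refine ⟨fun p => b₀ p + d p, fun M₀ => ?_⟩
  have hM0 : ∀ p : ℕ, ∃ M : ℕ, p ∈ P → M₀ + d p + 1 ≤ M ∧
      ∃ α : AlgebraicClosure H ≃ₐ[H] AlgebraicClosure H,
      (∀ (x : AlgebraicClosure H) (a : H), x ^ p ^ M = algebraMap H _ a → α x = x) ∧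
      ∀ ξ : AlgebraicClosure H, IsPrimitiveRoot ξ (p ^ (M + b₀ p + 1)) → α ξ ≠ ξ := by
    intro p
    by_cases hp : p ∈ P
    · obtain ⟨M, hM⟩ := hb₀ p hp (M₀ + d p + 1)
      exact ⟨M, fun _ => hM⟩
    · exact ⟨0, fun h => absurd h hp⟩
  choose M hM using hM0
  have hα0 : ∀ p : ℕ, ∃ α : AlgebraicClosure H ≃ₐ[H] AlgebraicClosure H, p ∈ P →
      (∀ (x : AlgebraicClosure H) (a : H), x ^ p ^ M p = algebraMap H _ a → α x = x) ∧
      ∀ ξ : AlgebraicClosure H, IsPrimitiveRoot ξ (p ^ (M p + b₀ p + 1)) → α ξ ≠ ξ := by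
    intro p
    by_cases hp : p ∈ P
    · obtain ⟨α, hα⟩ := (hM p hp).2
      exact ⟨α, fun _ => hα⟩
    · exact ⟨1, fun h => absurd h hp⟩
  choose β₀ hβ₀ using hα0
  refine ⟨M, fun p hp => by have := (hM p hp).1; omega, ?_⟩
  -- the exponents
  let m : ℕ → ℕ := fun q => M q + (b₀ q + d q)
  let D : ℕ → ℕ := fun p => ∏ q ∈ P.erase p, (q ^ (m q + 1) * (q ^ (m q + 1)).totient)
  let β : ℕ → (AlgebraicClosure H ≃ₐ[H] AlgebraicClosure H) := fun p => β₀ p ^ D p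
  have hkill : ∀ p ∈ P, ∀ q ∈ P, q ≠ p → ∀ (x : AlgebraicClosure H) (a : H),
      x ^ q ^ (m q + 1) = algebraMap H _ a → β p x = x := by
    intro p _ q hq hqp x a hx
    refine nu_kill (β₀ p) (pow_pos (hP q hq).pos _) hx ?_
    exact Finset.dvd_prod_of_mem (fun q => q ^ (m q + 1) * (q ^ (m q + 1)).totient)
      (Finset.mem_erase.2 ⟨hqp, hq⟩)
  have hξ0 : ∀ p : ℕ, ∃ ξ : AlgebraicClosure H, p ∈ P → IsPrimitiveRoot ξ (p ^ (m p + 1)) := by
    intro p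
    by_cases hp : p ∈ P
    · obtain ⟨ξ, hξ⟩ := nu_prim H (pow_pos (hP p hp).pos (m p + 1))
      exact ⟨ξ, fun _ => hξ⟩
    · exact ⟨1, fun h => absurd h hp⟩
  choose ξ hξ using hξ0
  let N : Subgroup (AlgebraicClosure H ≃ₐ[H] AlgebraicClosure H) :=
    { carrier := {σ | ∀ p ∈ P, ∀ (x : AlgebraicClosure H) (a : H),
        x ^ p ^ M p = algebraMap H _ a → σ x = x}
      one_mem' := fun p _ x a _ => rfl
      mul_mem' := fun {σ τ} hσ hτ p hp x a hx => by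
        show σ (τ x) = x
        rw [hτ p hp x a hx, hσ p hp x a hx]
      inv_mem' := fun {σ} hσ p hp x a hx => by
        show σ⁻¹ x = x
        have h1 : σ x = x := hσ p hp x a hx
        have h2 : σ⁻¹ (σ x) = x := by
          show (σ⁻¹ * σ) x = x
          rw [inv_mul_cancel]
          rfl
        rwa [h1] at h2 }
  suffices hex : ∃ α ∈ N, ∀ p ∈ P,
      α ∉ MulAction.stabilizer (AlgebraicClosure H ≃ₐ[H] AlgebraicClosure H) (ξ p) by
    obtain ⟨α, hαN, hαP⟩ := hex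
    refine ⟨α, hαN, fun p hp ξ' hξ' h => ?_⟩
    apply hαP p hp
    rw [MulAction.mem_stabilizer_iff]
    show α (ξ p) = ξ p
    have hne : NeZero (p ^ (M p + (b₀ p + d p) + 1)) := ⟨(pow_pos (hP p hp).pos _).ne'⟩
    obtain ⟨i, -, hi⟩ := hξ'.eq_pow_of_pow_eq_one (hξ p hp).pow_eq_one
    rw [← hi, map_pow, h]
  refine grp_avoid N P
    (fun p => MulAction.stabilizer (AlgebraicClosure H ≃ₐ[H] AlgebraicClosure H) (ξ p)) β ?_ ?_ ?_
  · intro p hp q hq x a hx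
    by_cases hqp : q = p
    · subst hqp
      have h1 : β₀ q ∈ MulAction.stabilizer (AlgebraicClosure H ≃ₐ[H] AlgebraicClosure H) x :=
        (hβ₀ q hq).1 x a hx
      exact Subgroup.pow_mem _ h1 (D q)
    · refine hkill p hp q hq hqp x (a ^ q ^ (m q + 1 - M q)) ?_
      rw [map_pow, ← hx, ← pow_mul, ← pow_add]
      congr 2
      show M q + (b₀ q + d q) + 1 = M q + (M q + (b₀ q + d q) + 1 - M q)
      omega
  · intro p hp h
    rw [MulAction.mem_stabilizer_iff] at h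
    refine nu_power (β₀ p) (M := M p) (b := b₀ p) (d := d p) (D := D p) (hP p hp) ?_
      (hβ₀ p hp).1 (hβ₀ p hp).2 ?_ (hξ p hp) h
    · have := (hM p hp).1
      omega
    · exact nu_dvd (hP p hp) (P.erase p) (fun q hq =>
        ⟨hP q (Finset.mem_of_mem_erase hq), Finset.ne_of_mem_erase hq⟩) m
  · intro p hp q hq hpq
    rw [MulAction.mem_stabilizer_iff]
    exact hkill p hp q hq hpq.symm (ξ q) 1 (by rw [(hξ q hq).pow_eq_one, map_one])

/-- The automorphism of a number field. -/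
theorem nu_alpha (H : Type) [Field H] [NumberField H] (P : Finset ℕ) (hP : ∀ p ∈ P, p.Prime) :
    ∃ b : ℕ → ℕ, ∀ M₀ : ℕ, ∃ M : ℕ → ℕ, (∀ p ∈ P, M₀ ≤ M p) ∧ ∀ A : Finset H,
      ∃ (L : Type) (_ : Field L) (_ : NumberField L) (_ : Algebra H L) (α : L ≃ₐ[H] L),
        (∀ p ∈ P, ∃ ξ : L, IsPrimitiveRoot ξ (p ^ (M p + b p + 1)) ∧ α ξ ≠ ξ ∧
          α (ξ ^ p ^ (b p + 1)) = ξ ^ p ^ (b p + 1)) ∧
        ∀ p ∈ P, ∀ a ∈ A, ∃ t : L, t ^ p ^ M p = algebraMap H L a ∧ α t = t := by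
  classical
  obtain ⟨b, hb⟩ := nu_multi H P hP
  refine ⟨b, fun M₀ => ?_⟩
  obtain ⟨M, hM, α, hα, hαξ⟩ := hb M₀
  refine ⟨M, hM, fun A => ?_⟩
  let Ω := AlgebraicClosure H
  have hgal : IsGalois H Ω := IsAlgClosure.isGalois H Ω
  have hξ0 : ∀ p : ℕ, ∃ ξ : Ω, p ∈ P → IsPrimitiveRoot ξ (p ^ (M p + b p + 1)) := by
    intro p
    by_cases hp : p ∈ P
    · obtain ⟨ξ, hξ⟩ := nu_prim H (pow_pos (hP p hp).pos (M p + b p + 1))
      exact ⟨ξ, fun _ => hξ⟩
    · exact ⟨1, fun h => absurd h hp⟩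
  choose ξ hξ using hξ0
  have ht : ∀ (p : ℕ) (a : H), ∃ t : Ω, p ∈ P → t ^ p ^ M p = algebraMap H Ω a := by
    intro p a
    by_cases hp : p ∈ P
    · obtain ⟨t, ht⟩ := IsAlgClosed.exists_pow_nat_eq (algebraMap H Ω a)
        (pow_pos (hP p hp).pos (M p))
      exact ⟨t, fun _ => ht⟩
    · exact ⟨1, fun h => absurd h hp⟩
  choose t ht using ht
  let E : IntermediateField H Ω := IntermediateField.adjoin H
    ((ξ '' (P : Set ℕ)) ∪ (fun q : ℕ × H => t q.1 q.2) '' ((P : Set ℕ) ×ˢ (A : Set H)))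
  have hfin : ((ξ '' (P : Set ℕ)) ∪ (fun q : ℕ × H => t q.1 q.2) ''
      ((P : Set ℕ) ×ˢ (A : Set H))).Finite :=
    (P.finite_toSet.image ξ).union ((P.finite_toSet.prod A.finite_toSet).image _)
  have hfdE : FiniteDimensional H E := by
    have := hfin.to_subtype
    exact IntermediateField.finiteDimensional_adjoin (fun x _ => Algebra.IsIntegral.isIntegral x)
  let L : IntermediateField H Ω := IntermediateField.normalClosure H E Ω
  have hEL : E ≤ L := IntermediateField.le_normalClosure E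
  have hnL : Normal H L := normalClosure.normal H E Ω
  have hfdL : FiniteDimensional H L := normalClosure.is_finiteDimensional H E Ω
  have hNL : NumberField L := NumberField.of_module_finite H L
  have hres : ∀ x : L, ((α.restrictNormal L x : L) : Ω) = α (x : Ω) := fun x =>
    AlgEquiv.restrictNormal_commutes α L x
  refine ⟨L, inferInstance, hNL, inferInstance, α.restrictNormal L, ?_, ?_⟩
  · intro p hp
    have hξL : ξ p ∈ L := hEL (IntermediateField.subset_adjoin H _ (Or.inl ⟨p, hp, rfl⟩))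
    refine ⟨⟨ξ p, hξL⟩, ?_, ?_, ?_⟩
    · exact IsPrimitiveRoot.of_map_of_injective (f := L.val) (hξ p hp) L.val.injective
    · intro h
      apply hαξ p hp (ξ p) (hξ p hp)
      rw [← hres ⟨ξ p, hξL⟩, h]
    · apply Subtype.ext
      rw [hres]
      refine hα p hp _ 1 ?_
      show (ξ p ^ p ^ (b p + 1)) ^ p ^ M p = _
      rw [← pow_mul, ← pow_add, map_one, (hξ p hp).pow_eq_one_iff_dvd]
      exact pow_dvd_pow p (by omega)
  · intro p hp a ha
    refine ⟨⟨t p a, hEL (IntermediateField.subset_adjoin H _ (Or.inr ⟨(p, a), ⟨hp, ha⟩, rfl⟩))⟩,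
      ?_, ?_⟩
    · apply Subtype.ext
      exact ht p a hp
    · apply Subtype.ext
      rw [hres]
      exact hα p hp _ a (ht p a hp)

end Pool.Agent.RT
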